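import Pool.Agent.P.MP_1bff7a_co.Fiber

namespace Pool.Agent.P.MP_1bff7a_co

open Finset

variable {α : Type*}

/-- The class of `e` at level `j`: its line and its position without the last `j` digits. -/
def key (K : ℕ) (line pos : α → ℕ) (j : ℕ) (e : α) : ℕ × ℕ := (line e, pos e / K ^ j)

/-- The digit of the position at level `j`. -/
def dig (K : ℕ) (pos : α → ℕ) (j : ℕ) (e : α) : ℕ := pos e / K ^ j % K

/-- The child of the class `h` with digit `b`. -/
def child (K : ℕ) (h : ℕ × ℕ) (b : ℕ) : ℕ × ℕ := (h.1, K * h.2 + b)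

lemma key_succ (K : ℕ) (line pos : α → ℕ) (j : ℕ) (e : α) :
    key K line pos (j + 1) e = (fun h : ℕ × ℕ => (h.1, h.2 / K)) (key K line pos j e) := by
  simp [key, pow_succ, Nat.div_div_eq_div_mul]

lemma dig_lt {K : ℕ} (hK : 0 < K) (pos : α → ℕ) (j : ℕ) (e : α) : dig K pos j e < K :=
  Nat.mod_lt _ hK

lemma key_eq_child_iff {K : ℕ} (hK : 0 < K) (line pos : α → ℕ) (j : ℕ) (e : α) (h : ℕ × ℕ)
    {b : ℕ} (hb : b < K) :
    key K line pos j e = child K h b ↔ key K line pos (j + 1) e = h ∧ dig K pos j e = b := by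
  rw [key_succ]
  obtain ⟨h1, h2⟩ := h
  simp only [key, child, dig, Prod.mk.injEq]
  generalize pos e / K ^ j = m
  constructor
  · rintro ⟨a1, a2⟩
    subst a2
    refine ⟨⟨a1, ?_⟩, ?_⟩
    · rw [Nat.mul_add_div hK, Nat.div_eq_of_lt hb, add_zero]
    · rw [Nat.mul_add_mod, Nat.mod_eq_of_lt hb]
  · rintro ⟨⟨a1, a2⟩, a3⟩
    refine ⟨a1, ?_⟩
    rw [← a2, ← a3, Nat.div_add_mod]

lemma fib_child {K : ℕ} (hK : 0 < K) (E : Finset α) (line pos : α → ℕ) (j : ℕ) (h : ℕ × ℕ)
    {b : ℕ} (hb : b < K) :
    fib E (key K line pos j) (child K h b)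
      = (fib E (key K line pos (j + 1)) h).filter fun e => dig K pos j e = b := by
  ext e
  rw [mem_filter, mem_fib, mem_fib, key_eq_child_iff hK line pos j e h hb, and_assoc]

open Classical in
/-- The digits whose child holds at least an `η` share of the class. -/
noncomputable def S (η : ℝ) (K : ℕ) (E : Finset α) (line pos : α → ℕ) (j : ℕ) (h : ℕ × ℕ) :
    Finset ℕ :=
  (range K).filter fun b =>
    η * #(fib E (key K line pos (j + 1)) h) ≤ #(fib E (key K line pos j) (child K h b))

lemma mem_S {η : ℝ} {K : ℕ} {E : Finset α} {line pos : α → ℕ} {j : ℕ} {h : ℕ × ℕ} {b : ℕ} :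
    b ∈ S η K E line pos j h ↔ b < K ∧
      η * #(fib E (key K line pos (j + 1)) h) ≤ #(fib E (key K line pos j) (child K h b)) := by
  simp [S]

lemma outlier {η : ℝ} (hη : 0 ≤ η) {K : ℕ} (hK : 0 < K) (E : Finset α) (line pos : α → ℕ)
    (j : ℕ) :
    (#(E.filter fun e => dig K pos j e ∉ S η K E line pos j (key K line pos (j + 1) e)) : ℝ)
      ≤ K * η * #E := by
  classical
  have hE : (K * η * #E : ℝ) = ∑ _x ∈ E, K * η := by simp [mul_comm]
  rw [hE]
  refine card_le_of_fib E (key K line pos (j + 1)) _ _ fun e _ => ?_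
  set h := key K line pos (j + 1) e with hh
  have hsub : ((fib E (key K line pos (j + 1)) h).filter fun x =>
      dig K pos j x ∉ S η K E line pos j (key K line pos (j + 1) x))
      ⊆ ((range K).filter fun b => b ∉ S η K E line pos j h).biUnion
        fun b => fib E (key K line pos j) (child K h b) := by
    intro x hx
    obtain ⟨hx1, hx2⟩ := mem_filter.1 hx
    obtain ⟨hx3, hx4⟩ := mem_fib.1 hx1
    rw [hx4] at hx2
    refine mem_biUnion.2 ⟨dig K pos j x, mem_filter.2 ⟨mem_range.2 (dig_lt hK _ _ _), hx2⟩, ?_⟩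
    exact mem_fib.2 ⟨hx3, (key_eq_child_iff hK line pos j x h (dig_lt hK _ _ _)).2 ⟨hx4, rfl⟩⟩
  have h1 := (card_le_card hsub).trans card_biUnion_le
  have h2 : (∑ b ∈ (range K).filter fun b => b ∉ S η K E line pos j h,
      (#(fib E (key K line pos j) (child K h b)) : ℝ))
      ≤ ∑ _b ∈ range K, η * #(fib E (key K line pos (j + 1)) h) := by
    refine le_trans (sum_le_sum (g := fun _ => η * #(fib E (key K line pos (j + 1)) h))
      fun b hb => ?_) (sum_le_sum_of_subset_of_nonneg (filter_subset _ _) fun _ _ _ => by positivity)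
    obtain ⟨hb1, hb2⟩ := mem_filter.1 hb
    rw [mem_S, not_and, not_le] at hb2
    exact (hb2 (mem_range.1 hb1)).le
  rw [sum_const, card_range, nsmul_eq_mul] at h2
  rw [sum_const, nsmul_eq_mul]
  have h3 : (#((fib E (key K line pos (j + 1)) h).filter fun x =>
      dig K pos j x ∉ S η K E line pos j (key K line pos (j + 1) x)) : ℝ)
      ≤ ∑ b ∈ (range K).filter fun b => b ∉ S η K E line pos j h,
      (#(fib E (key K line pos j) (child K h b)) : ℝ) := by exact_mod_cast h1
  nlinarith

/-- The levels at which the class of `e` has at least `L` heavy children. -/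
noncomputable def rich (η : ℝ) (K L d : ℕ) (E : Finset α) (line pos : α → ℕ) (e : α) : Finset ℕ :=
  (range d).filter fun j => L ≤ #(S η K E line pos j (key K line pos (j + 1) e))

/-- The levels at which `e` lies in a light child. -/
noncomputable def outs (η : ℝ) (K d : ℕ) (E : Finset α) (line pos : α → ℕ) (e : α) : Finset ℕ :=
  (range d).filter fun j => dig K pos j e ∉ S η K E line pos j (key K line pos (j + 1) e)

lemma markov {η : ℝ} (hη : 0 ≤ η) {K : ℕ} (hK : 0 < K) (d t : ℕ) (E : Finset α)
    (line pos : α → ℕ) :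
    ((t : ℝ) + 1) * #(E.filter fun e => t < #(outs η K d E line pos e)) ≤ d * (K * η * #E) := by
  have h1 : ∑ e ∈ E, (#(outs η K d E line pos e) : ℝ) ≤ d * (K * η * #E) := by
    have : ∑ e ∈ E, (#(outs η K d E line pos e) : ℝ) = ∑ j ∈ range d,
        (#(E.filter fun e => dig K pos j e ∉ S η K E line pos j (key K line pos (j + 1) e)) : ℝ) := by
      simp only [outs, card_filter, Nat.cast_sum]
      exact sum_comm
    rw [this]
    refine le_trans (sum_le_sum fun j _ => outlier hη hK E line pos j) ?_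
    simp
  refine le_trans ?_ h1
  refine le_trans ?_ (sum_le_sum_of_subset_of_nonneg
    (filter_subset (fun e => t < #(outs η K d E line pos e)) E) fun _ _ _ => by positivity)
  rw [mul_comm, ← nsmul_eq_mul, ← sum_const]
  refine sum_le_sum fun e he => ?_
  exact_mod_cast (mem_filter.1 he).2

lemma poor (η : ℝ) {K L : ℕ} (hK : 0 < K) (hL : 0 < L) (d t n : ℕ) (E : Finset α)
    (line pos : α → ℕ) (hline : ∀ e ∈ E, line e < n) (hpos : ∀ e ∈ E, pos e < K ^ d)
    (hinj : ∀ e ∈ E, ∀ e' ∈ E, line e = line e' → pos e = pos e' → e = e') :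
    (#(E.filter fun e => #(rich η K L d E line pos e) ≤ t ∧ #(outs η K d E line pos e) ≤ t) : ℝ)
      ≤ n * ((2 * K) ^ (2 * t) * (2 * L) ^ d) := by
  classical
  have hK1 : (1 : ℝ) ≤ K := by exact_mod_cast hK
  have hL1 : (1 : ℝ) ≤ L := by exact_mod_cast hL
  let w : ℕ → ℕ → ℕ → ℕ → ℝ := fun r j q b =>
    if #(S η K E line pos j (r, q)) < L ∧ b ∈ S η K E line pos j (r, q) then 1 / (2 * L)
    else 1 / (2 * K)
  have hw0 : ∀ r j q b, 0 ≤ w r j q b := by
    intro r j q b; simp only [w]; split_ifs <;> positivity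
  have hw1 : ∀ r j q, ∑ b ∈ range K, w r j q b ≤ 1 := by
    intro r j q
    have h1 : ∀ b ∈ range K, w r j q b ≤
        (if #(S η K E line pos j (r, q)) < L ∧ b ∈ S η K E line pos j (r, q) then (1 : ℝ) / (2 * L)
          else 0) + 1 / (2 * K) := by
      intro b _
      simp only [w]
      split_ifs
      · have : (0 : ℝ) ≤ 1 / (2 * K) := by positivity
        linarith
      · simp
    refine (sum_le_sum h1).trans ?_
    rw [sum_add_distrib, ← sum_filter, sum_const, sum_const, card_range, nsmul_eq_mul, nsmul_eq_mul]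
    have h2 : (#((range K).filter fun b =>
        #(S η K E line pos j (r, q)) < L ∧ b ∈ S η K E line pos j (r, q)) : ℝ) ≤ L := by
      by_cases hc : #(S η K E line pos j (r, q)) < L
      · have : ((range K).filter fun b =>
            #(S η K E line pos j (r, q)) < L ∧ b ∈ S η K E line pos j (r, q))
            ⊆ S η K E line pos j (r, q) := fun b hb => (mem_filter.1 hb).2.2
        exact_mod_cast (card_le_card this).trans hc.le
      · simp [hc]
    have h3 : (K : ℝ) * (1 / (2 * K)) = 1 / 2 := by field_simp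
    have h4 : (L : ℝ) * (1 / (2 * L)) = 1 / 2 := by field_simp
    have h5 : (0 : ℝ) ≤ 1 / (2 * L) := by positivity
    have := mul_le_mul_of_nonneg_right h2 h5
    linarith
  let Pi : ℕ × ℕ → ℝ := fun x => ∏ j ∈ range d, w x.1 j (x.2 / K ^ (j + 1)) (x.2 / K ^ j % K)
  have hPi0 : ∀ x, 0 ≤ Pi x := fun x => prod_nonneg fun j _ => hw0 _ _ _ _
  have hsum : ∑ e ∈ E, Pi (line e, pos e) ≤ n := by
    rw [← sum_image (s := E) (g := fun e => (line e, pos e)) (f := Pi)
      (fun e he e' he' h => hinj e he e' he' (congrArg Prod.fst h) (congrArg Prod.snd h))]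
    have hsub : E.image (fun e => (line e, pos e)) ⊆ range n ×ˢ range (K ^ d) := by
      intro x hx
      obtain ⟨e, he, rfl⟩ := mem_image.1 hx
      exact mem_product.2 ⟨mem_range.2 (hline e he), mem_range.2 (hpos e he)⟩
    refine (sum_le_sum_of_subset_of_nonneg hsub fun x _ _ => hPi0 x).trans ?_
    rw [sum_product]
    refine (sum_le_sum fun r _ => sum_prod_le_one hK d (w r) (hw0 r) (hw1 r)).trans ?_
    simp
  have hlow : ∀ e ∈ E.filter fun e =>
      #(rich η K L d E line pos e) ≤ t ∧ #(outs η K d E line pos e) ≤ t,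
      1 / ((2 * K) ^ (2 * t) * (2 * L) ^ d) ≤ Pi (line e, pos e) := by
    intro e he
    obtain ⟨_, h1, h2⟩ := mem_filter.1 he
    let p : ℕ → Prop := fun j => j ∈ rich η K L d E line pos e ∪ outs η K d E line pos e
    have h3 : ∏ j ∈ range d, ((1 : ℝ) / (2 * L) * if p j then (1 : ℝ) / (2 * K) else 1)
        ≤ Pi (line e, pos e) := by
      refine prod_le_prod (fun j _ => by split_ifs <;> positivity) fun j hj => ?_
      have hL2 : (1 : ℝ) / (2 * L) ≤ 1 := by
        rw [div_le_one (by positivity)]; linarith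
      have hK2 : (1 : ℝ) / (2 * K) ≤ 1 := by
        rw [div_le_one (by positivity)]; linarith
      simp only [w]
      by_cases hp : p j
      · rw [if_pos hp]
        split_ifs
        · exact mul_le_of_le_one_right (by positivity) hK2
        · exact mul_le_of_le_one_left (by positivity) hL2
      · rw [if_neg hp, mul_one, if_pos]
        simp only [p, rich, outs, mem_union, mem_filter, hj, true_and, not_or, not_le,
          not_not] at hp
        exact hp
    refine le_trans ?_ h3
    rw [prod_mul_distrib, prod_const, card_range, prod_ite, prod_const, prod_const_one, mul_one]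
    have h4 : #((range d).filter p) ≤ 2 * t := by
      have : (range d).filter p ⊆ rich η K L d E line pos e ∪ outs η K d E line pos e :=
        fun j hj => (mem_filter.1 hj).2
      have := (card_le_card this).trans (card_union_le _ _)
      omega
    have h5 : ((1 : ℝ) / (2 * K)) ^ (2 * t) ≤ (1 / (2 * K)) ^ #((range d).filter p) :=
      pow_le_pow_of_le_one (by positivity) (by rw [div_le_one (by positivity)]; linarith) h4
    calc (1 : ℝ) / ((2 * K) ^ (2 * t) * (2 * L) ^ d)
        = (1 / (2 * L)) ^ d * (1 / (2 * K)) ^ (2 * t) := by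
          rw [div_pow, div_pow, one_pow, one_pow]; field_simp
      _ ≤ _ := by gcongr
  have h6 := (sum_le_sum hlow).trans ((sum_le_sum_of_subset_of_nonneg (filter_subset _ E)
    fun x _ _ => hPi0 _).trans hsum)
  rw [sum_const, nsmul_eq_mul, mul_one_div, div_le_iff₀ (by positivity)] at h6
  exact h6

/-- The energy increment of `Z` at level `j`. -/
noncomputable def gap (K : ℕ) (E Z : Finset α) (line pos : α → ℕ) (j : ℕ) : ℝ :=
  ∑ e ∈ E, (dens E Z (key K line pos j) (key K line pos j e)
    - dens E Z (key K line pos (j + 1)) (key K line pos (j + 1) e)) ^ 2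

lemma sum_gap_le (K d : ℕ) {E Z : Finset α} (hZ : Z ⊆ E) (line pos : α → ℕ) :
    ∑ j ∈ range d, gap K E Z line pos j ≤ #E := by
  let Φ : ℕ → ℝ := fun j => ∑ e ∈ E, dens E Z (key K line pos j) (key K line pos j e) ^ 2
  have h1 : ∀ j, gap K E Z line pos j = Φ j - Φ (j + 1) := fun j =>
    energy_step hZ _ _ (fun h : ℕ × ℕ => (h.1, h.2 / K)) (key_succ K line pos j)
  simp only [h1]
  rw [sum_range_sub']
  have h2 : 0 ≤ Φ d := sum_nonneg fun _ _ => sq_nonneg _
  have h3 : Φ 0 ≤ ∑ _e ∈ E, (1 : ℝ) := sum_le_sum fun e _ =>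
    pow_le_one₀ (dens_nonneg _ _ _ _) (dens_le_one hZ _ _)
  rw [sum_const, nsmul_eq_mul, mul_one] at h3
  linarith

/-- `e` is in `Z` and its class has a heavy child that holds little of `Z`. -/
def IsBad (η : ℝ) (K : ℕ) (E Z : Finset α) (line pos : α → ℕ) (j : ℕ) (e : α) : Prop :=
  e ∈ Z ∧ ∃ b ∈ S η K E line pos j (key K line pos (j + 1) e),
    (#(fib Z (key K line pos j) (child K (key K line pos (j + 1) e) b)) : ℝ)
      < η / 2 * #(fib Z (key K line pos (j + 1)) (key K line pos (j + 1) e))

open Classical in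
/-- The elements of `Z` whose class has a heavy child that holds little of `Z`. -/
noncomputable def bad (η : ℝ) (K : ℕ) (E Z : Finset α) (line pos : α → ℕ) (j : ℕ) : Finset α :=
  E.filter (IsBad η K E Z line pos j)

lemma card_bad_le {η θ : ℝ} (hη : 0 < η) (hθ : 0 < θ) {K : ℕ} (hK : 0 < K) (E Z : Finset α)
    (line pos : α → ℕ) (j : ℕ) :
    (#(bad η K E Z line pos j) : ℝ) ≤ θ * #E + 4 / (η * θ) * gap K E Z line pos j := by
  classical
  have hE : θ * #E + 4 / (η * θ) * gap K E Z line pos j = ∑ e ∈ E, (θ + 4 / (η * θ) *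
      (dens E Z (key K line pos j) (key K line pos j e)
        - dens E Z (key K line pos (j + 1)) (key K line pos (j + 1) e)) ^ 2) := by
    rw [sum_add_distrib, sum_const, nsmul_eq_mul, gap, mul_sum, mul_comm]
  rw [hE, bad]
  refine card_le_of_fib E (key K line pos (j + 1)) _ _ fun e he => ?_
  set h := key K line pos (j + 1) e with hh
  by_cases hb : ∃ b ∈ S η K E line pos j h,
      (#(fib Z (key K line pos j) (child K h b)) : ℝ) < η / 2 * #(fib Z (key K line pos (j + 1)) h)
  · obtain ⟨b, hbS, hlt⟩ := hb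
    obtain ⟨hbK, hheavy⟩ := mem_S.1 hbS
    have hm : (0 : ℝ) < #(fib E (key K line pos (j + 1)) h) := fib_card_pos _ he
    have hsub : ((fib E (key K line pos (j + 1)) h).filter (IsBad η K E Z line pos j))
        ⊆ fib Z (key K line pos (j + 1)) h := by
      intro x hx
      obtain ⟨hx1, hx2, _⟩ := mem_filter.1 hx
      exact mem_fib.2 ⟨hx2, (mem_fib.1 hx1).2⟩
    have h1 := card_le_card hsub
    refine le_trans (b := (#(fib Z (key K line pos (j + 1)) h) : ℝ)) (by exact_mod_cast h1) ?_
    rw [sum_add_distrib, sum_const, nsmul_eq_mul, ← mul_sum]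
    have hsub2 : fib E (key K line pos j) (child K h b) ⊆ fib E (key K line pos (j + 1)) h := by
      rw [fib_child hK E line pos j h hbK]; exact filter_subset _ _
    have h2 : (#(fib E (key K line pos j) (child K h b)) : ℝ) *
        (dens E Z (key K line pos j) (child K h b) - dens E Z (key K line pos (j + 1)) h) ^ 2
        ≤ ∑ x ∈ fib E (key K line pos (j + 1)) h,
          (dens E Z (key K line pos j) (key K line pos j x)
            - dens E Z (key K line pos (j + 1)) (key K line pos (j + 1) x)) ^ 2 := by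
      refine le_trans ?_ (sum_le_sum_of_subset_of_nonneg hsub2 fun _ _ _ => sq_nonneg _)
      rw [← nsmul_eq_mul, ← sum_const]
      refine le_of_eq (sum_congr rfl fun x hx => ?_)
      rw [(mem_fib.1 hx).2, (mem_fib.1 (hsub2 hx)).2]
    refine le_trans ?_ (add_le_add le_rfl (mul_le_mul_of_nonneg_left h2 (by positivity)))
    unfold dens
    set m := (#(fib E (key K line pos (j + 1)) h) : ℝ)
    set g := (#(fib Z (key K line pos (j + 1)) h) : ℝ)
    set mb := (#(fib E (key K line pos j) (child K h b)) : ℝ)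
    set gb := (#(fib Z (key K line pos j) (child K h b)) : ℝ)
    have hg0 : 0 ≤ g := by positivity
    have hgb0 : 0 ≤ gb := by positivity
    have hmb : 0 < mb := lt_of_lt_of_le (by positivity) hheavy
    have h3 : gb / mb ≤ g / m / 2 := by
      rw [div_le_iff₀ hmb]
      have : g / m / 2 * (η * m) ≤ g / m / 2 * mb :=
        mul_le_mul_of_nonneg_left hheavy (by positivity)
      have e1 : g / m / 2 * (η * m) = η / 2 * g := by field_simp
      linarith
    have h4 : (g / m / 2) ^ 2 ≤ (gb / mb - g / m) ^ 2 := by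
      have : 0 ≤ g / m / 2 := by positivity
      nlinarith
    have h5 : η * m * (g / m / 2) ^ 2 ≤ mb * (gb / mb - g / m) ^ 2 :=
      mul_le_mul hheavy h4 (by positivity) hmb.le
    have h6 : 4 / (η * θ) * (η * m * (g / m / 2) ^ 2) = g ^ 2 / (θ * m) := by
      field_simp; ring
    have h7 : g ≤ m * θ + g ^ 2 / (θ * m) := by
      have hθm : 0 < θ * m := by positivity
      have e2 : m * θ + g ^ 2 / (θ * m) - g = ((θ * m - g) ^ 2 + θ * m * g) / (θ * m) := by
        field_simp; ring
      have : 0 ≤ ((θ * m - g) ^ 2 + θ * m * g) / (θ * m) := by positivity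
      linarith
    have h8 := mul_le_mul_of_nonneg_left h5 (show 0 ≤ 4 / (η * θ) by positivity)
    linarith
  · have : ((fib E (key K line pos (j + 1)) h).filter (IsBad η K E Z line pos j)) = ∅ := by
      refine filter_eq_empty_iff.2 fun x hx hx2 => hb ?_
      rw [IsBad, (mem_fib.1 hx).2] at hx2
      exact hx2.2
    rw [this, card_empty, Nat.cast_zero]
    exact sum_nonneg fun _ _ => by positivity

end Pool.Agent.P.MP_1bff7a_co
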