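import Pool.Agent.P.MP_1bff7a_co.Fiber

namespace Pool.Agent.P.MP_1bff7a_co

open Finset

variable {α β : Type*}

/-- `e` survives `t` rounds of moves along its row class and its column class. -/
def Good (G : Finset α) (κH κV : α → β) (x y : α → ℕ) (S0 T0 : Finset ℕ) : ℕ → α → Prop
  | 0, e => e ∈ G
  | t + 1, e => e ∈ G ∧ (∀ b ∈ S0, ∃ e', κH e' = κH e ∧ x e' = b ∧ Good G κH κV x y S0 T0 t e') ∧
      (∀ a ∈ T0, ∃ e', κV e' = κV e ∧ y e' = a ∧ Good G κH κV x y S0 T0 t e')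

section
variable {G : Finset α} {κH κV : α → β} {x y : α → ℕ} {S0 T0 : Finset ℕ}

lemma Good.mem : ∀ {t : ℕ} {e : α}, Good G κH κV x y S0 T0 t e → e ∈ G
  | 0, _, h => h
  | _ + 1, _, h => h.1

lemma Good.pred : ∀ {t : ℕ} {e : α}, Good G κH κV x y S0 T0 (t + 1) e → Good G κH κV x y S0 T0 t e
  | 0, _, h => h.1
  | t + 1, _, h => by
    refine ⟨h.1, fun b hb => ?_, fun a ha => ?_⟩
    · obtain ⟨e', h1, h2, h3⟩ := h.2.1 b hb
      exact ⟨e', h1, h2, Good.pred h3⟩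
    · obtain ⟨e', h1, h2, h3⟩ := h.2.2 a ha
      exact ⟨e', h1, h2, Good.pred h3⟩

lemma Good.anti {s t : ℕ} (hst : s ≤ t) {e : α} (h : Good G κH κV x y S0 T0 t e) :
    Good G κH κV x y S0 T0 s e := by
  induction hst with
  | refl => exact h
  | step _ ih => exact ih h.pred

end

variable [DecidableEq β]

open Classical in
lemma stuck_le (G : Finset α) (κ : α → β) (x : α → ℕ) (S0 : Finset ℕ) (D : Finset α) {ρ : ℝ}
    (hρ : 0 < ρ) (q : α → Prop)
    (hH : ∀ e ∈ G, e ∉ D → ∀ b ∈ S0, ρ * #(fib G κ (κ e)) ≤ #((fib G κ (κ e)).filter (x · = b))) :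
    (#(G.filter fun e => e ∉ D ∧ ¬ ∀ b ∈ S0, ∃ e', κ e' = κ e ∧ x e' = b ∧ q e') : ℝ)
      ≤ 1 / ρ * #(G.filter fun e => ¬ q e) := by
  have h1 : ∀ F : Finset α, 1 / ρ * (#(F.filter fun e => ¬ q e) : ℝ)
      = ∑ e ∈ F, 1 / ρ * if ¬ q e then (1 : ℝ) else 0 := by
    intro F; rw [← mul_sum, sum_boole]
  rw [h1]
  refine card_le_of_fib G κ _ _ fun e _ => ?_
  rw [← h1]
  rcases ((fib G κ (κ e)).filter fun e =>
    e ∉ D ∧ ¬ ∀ b ∈ S0, ∃ e', κ e' = κ e ∧ x e' = b ∧ q e').eq_empty_or_nonempty with h | h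
  · rw [h, card_empty, Nat.cast_zero]; positivity
  · obtain ⟨e1, he1⟩ := h
    obtain ⟨h2, h3, h4⟩ := mem_filter.1 he1
    obtain ⟨h5, h6⟩ := mem_fib.1 h2
    push Not at h4
    obtain ⟨b, hb, h7⟩ := h4
    have h8 := hH e1 h5 h3 b hb
    rw [h6] at h8 h7
    have h9 : ((fib G κ (κ e)).filter (x · = b)) ⊆ (fib G κ (κ e)).filter fun e => ¬ q e := by
      intro z hz
      obtain ⟨hz1, hz2⟩ := mem_filter.1 hz
      exact mem_filter.2 ⟨hz1, h7 z (mem_fib.1 hz1).2 hz2⟩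
    have h10 : (#((fib G κ (κ e)).filter (x · = b)) : ℝ)
        ≤ #((fib G κ (κ e)).filter fun e => ¬ q e) := by exact_mod_cast card_le_card h9
    have h11 : (#((fib G κ (κ e)).filter fun e =>
        e ∉ D ∧ ¬ ∀ b ∈ S0, ∃ e', κ e' = κ e ∧ x e' = b ∧ q e') : ℝ) ≤ #(fib G κ (κ e)) := by
      exact_mod_cast card_filter_le _ _
    refine h11.trans ?_
    rw [one_div_mul_eq_div, le_div_iff₀ hρ]
    linarith

open Classical in
lemma prune (G : Finset α) (κH κV : α → β) (x y : α → ℕ) (S0 T0 : Finset ℕ) (D : Finset α)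
    {ρ : ℝ} (hρ : 0 < ρ)
    (hH : ∀ e ∈ G, e ∉ D → ∀ b ∈ S0,
      ρ * #(fib G κH (κH e)) ≤ #((fib G κH (κH e)).filter (x · = b)))
    (hV : ∀ e ∈ G, e ∉ D → ∀ a ∈ T0,
      ρ * #(fib G κV (κV e)) ≤ #((fib G κV (κV e)).filter (y · = a))) (t : ℕ) :
    (#(G.filter fun e => ¬ Good G κH κV x y S0 T0 t e) : ℝ) ≤ #D * (1 + 2 / ρ) ^ t := by
  induction t with
  | zero =>
    have : (G.filter fun e => ¬ Good G κH κV x y S0 T0 0 e) = ∅ :=
      filter_eq_empty_iff.2 fun e he h => h he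
    rw [this]; simp
  | succ t ih =>
    have h1 := stuck_le G κH x S0 D hρ (Good G κH κV x y S0 T0 t) hH
    have h2 := stuck_le G κV y T0 D hρ (Good G κH κV x y S0 T0 t) hV
    have hsub : (G.filter fun e => ¬ Good G κH κV x y S0 T0 (t + 1) e) ⊆
        D ∪ ((G.filter fun e => e ∉ D ∧
          ¬ ∀ b ∈ S0, ∃ e', κH e' = κH e ∧ x e' = b ∧ Good G κH κV x y S0 T0 t e') ∪
        (G.filter fun e => e ∉ D ∧
          ¬ ∀ b ∈ T0, ∃ e', κV e' = κV e ∧ y e' = b ∧ Good G κH κV x y S0 T0 t e')) := by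
      intro e he
      obtain ⟨he1, he2⟩ := mem_filter.1 he
      by_cases hD : e ∈ D
      · exact mem_union_left _ hD
      · refine mem_union_right _ ?_
        by_contra hc
        rw [mem_union, not_or, mem_filter, mem_filter] at hc
        refine he2 ⟨he1, ?_, ?_⟩
        · by_contra h; exact hc.1 ⟨he1, hD, h⟩
        · by_contra h; exact hc.2 ⟨he1, hD, h⟩
    have h3 := (card_le_card hsub).trans ((card_union_le _ _).trans
      (Nat.add_le_add_left (card_union_le _ _) _))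
    have h4 := (Nat.cast_le (α := ℝ)).2 h3
    rw [Nat.cast_add, Nat.cast_add] at h4
    have h5 : (1 : ℝ) ≤ (1 + 2 / ρ) ^ t := one_le_pow₀ (by
      have : 0 < 2 / ρ := by positivity
      linarith)
    have h6 : 1 / ρ * (#(G.filter fun e => ¬ Good G κH κV x y S0 T0 t e) : ℝ)
        ≤ 1 / ρ * (#D * (1 + 2 / ρ) ^ t) := mul_le_mul_of_nonneg_left ih (by positivity)
    have h7 : (#D : ℝ) ≤ #D * (1 + 2 / ρ) ^ t := le_mul_of_one_le_right (by positivity) h5
    have h8 : (#D : ℝ) * (1 + 2 / ρ) ^ (t + 1)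
        = #D * (1 + 2 / ρ) ^ t + 2 * (1 / ρ * (#D * (1 + 2 / ρ) ^ t)) := by ring
    rw [h8]
    linarith

/-- A finite nonempty vertex set of a forest has a vertex with at most one neighbour in it. -/
lemma exists_leaf {V : Type*} {Γ : SimpleGraph V} (hΓ : Γ.IsAcyclic) (s : Finset V)
    (hs : s.Nonempty) : ∃ v ∈ s, ∀ w ∈ s, ∀ w' ∈ s, Γ.Adj v w → Γ.Adj v w' → w = w' := by
  have hac := hΓ.induce (s : Set V)
  have : Nonempty (s : Set V) := by
    obtain ⟨v, hv⟩ := hs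
    exact ⟨⟨v, hv⟩⟩
  obtain ⟨u, v, p, hp, hmax⟩ :=
    SimpleGraph.Walk.exists_isPath_forall_isPath_length_le_length (Γ.induce (s : Set V))
  have key : ∀ w : (s : Set V), (Γ.induce (s : Set V)).Adj u w → w = p.snd := by
    intro w hadj
    apply hac.eq_snd_of_adj_start hp hadj
    by_contra hw
    have := hmax _ _ (p.cons hadj.symm) (hp.cons hw)
    simp at this
  refine ⟨u, u.2, fun w hw w' hw' h1 h2 => ?_⟩
  have e1 := key ⟨w, hw⟩ h1
  have e2 := key ⟨w', hw'⟩ h2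
  exact congrArg Subtype.val (e1.trans e2.symm)

omit [DecidableEq β] in
lemma embed {R C γ : Type*} {k l : ℕ} (P : Fin k → Fin l → Prop)
    (Γ : SimpleGraph (Fin k ⊕ Fin l)) (hΓ : Γ.IsAcyclic)
    (hP : ∀ i j, P i j → Γ.Adj (Sum.inl i) (Sum.inr j))
    (G : Finset (R × C)) (κH κV : R × C → β) (x y : R × C → ℕ) (S0 T0 : Finset ℕ)
    (blk : R × C → γ)
    (hH : ∀ e e', κH e' = κH e → e'.1 = e.1 ∧ blk e' = blk e)
    (hV : ∀ e e', κV e' = κV e → e'.2 = e.2 ∧ blk e' = blk e)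
    (a : Fin k → ℕ) (b : Fin l → ℕ) (ha : ∀ i, a i ∈ T0) (hb : ∀ j, b j ∈ S0) (e0 : R × C) :
    ∀ (m : ℕ) (s : Finset (Fin k ⊕ Fin l)), #s = m → ∀ t, Good G κH κV x y S0 T0 (t + m) e0 →
      ∃ φ : Fin k ⊕ Fin l → R × C,
        (∀ v ∈ s, Good G κH κV x y S0 T0 t (φ v) ∧ blk (φ v) = blk e0) ∧
        (∀ i, Sum.inl i ∈ s → y (φ (Sum.inl i)) = a i) ∧
        (∀ j, Sum.inr j ∈ s → x (φ (Sum.inr j)) = b j) ∧
        (∀ i j, Sum.inl i ∈ s → Sum.inr j ∈ s → P i j →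
          ((φ (Sum.inl i)).1, (φ (Sum.inr j)).2) ∈ G) := by
  classical
  intro m
  induction m with
  | zero =>
    intro s hs t _
    rw [card_eq_zero] at hs
    subst hs
    exact ⟨fun _ => e0, by simp, by simp, by simp, by simp⟩
  | succ m ih =>
    intro s hs t hg
    obtain ⟨v, hv, hleaf⟩ := exists_leaf hΓ s (card_pos.1 (by omega))
    obtain ⟨φ, h1, h2, h3, h4⟩ := ih (s.erase v) (by rw [card_erase_of_mem hv]; omega) (t + 1)
      (by rwa [add_right_comm, add_assoc])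
    have hbase : ∃ u, Good G κH κV x y S0 T0 (t + 1) u ∧ blk u = blk e0 ∧
        ∀ w ∈ s, Γ.Adj v w → u = φ w := by
      by_cases hw : ∃ w ∈ s, Γ.Adj v w
      · obtain ⟨w, hw1, hw2⟩ := hw
        have hw3 : w ∈ s.erase v := mem_erase.2 ⟨hw2.ne', hw1⟩
        exact ⟨φ w, (h1 w hw3).1, (h1 w hw3).2, fun w' hw' h => by rw [hleaf w hw1 w' hw' hw2 h]⟩
      · exact ⟨e0, hg.anti (by omega), rfl, fun w hw1 hw2 => absurd ⟨w, hw1, hw2⟩ hw⟩
    obtain ⟨u, hu1, hu2, hu3⟩ := hbase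
    rcases v with i0 | j0
    · obtain ⟨e', he1, he2, he3⟩ := hu1.2.2 (a i0) (ha i0)
      obtain ⟨he4, he5⟩ := hV u e' he1
      refine ⟨Function.update φ (Sum.inl i0) e', fun w hw => ?_, fun i hi => ?_, fun j hj => ?_,
        fun i j hi hj hp => ?_⟩
      · by_cases h : w = Sum.inl i0
        · subst h; rw [Function.update_self]; exact ⟨he3, he5.trans hu2⟩
        · rw [Function.update_of_ne h]
          exact ⟨(h1 w (mem_erase.2 ⟨h, hw⟩)).1.pred, (h1 w (mem_erase.2 ⟨h, hw⟩)).2⟩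
      · by_cases h : (Sum.inl i : Fin k ⊕ Fin l) = Sum.inl i0
        · rw [h, Function.update_self, Sum.inl.inj h]; exact he2
        · rw [Function.update_of_ne h]; exact h2 i (mem_erase.2 ⟨h, hi⟩)
      · rw [Function.update_of_ne Sum.inr_ne_inl]; exact h3 j (mem_erase.2 ⟨Sum.inr_ne_inl, hj⟩)
      · rw [Function.update_of_ne Sum.inr_ne_inl]
        by_cases h : (Sum.inl i : Fin k ⊕ Fin l) = Sum.inl i0
        · rw [h, Function.update_self, ← hu3 _ hj (h ▸ hP i j hp), ← he4]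
          exact he3.mem
        · rw [Function.update_of_ne h]
          exact h4 i j (mem_erase.2 ⟨h, hi⟩) (mem_erase.2 ⟨Sum.inr_ne_inl, hj⟩) hp
    · obtain ⟨e', he1, he2, he3⟩ := hu1.2.1 (b j0) (hb j0)
      obtain ⟨he4, he5⟩ := hH u e' he1
      refine ⟨Function.update φ (Sum.inr j0) e', fun w hw => ?_, fun i hi => ?_, fun j hj => ?_,
        fun i j hi hj hp => ?_⟩
      · by_cases h : w = Sum.inr j0
        · subst h; rw [Function.update_self]; exact ⟨he3, he5.trans hu2⟩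
        · rw [Function.update_of_ne h]
          exact ⟨(h1 w (mem_erase.2 ⟨h, hw⟩)).1.pred, (h1 w (mem_erase.2 ⟨h, hw⟩)).2⟩
      · rw [Function.update_of_ne Sum.inl_ne_inr]; exact h2 i (mem_erase.2 ⟨Sum.inl_ne_inr, hi⟩)
      · by_cases h : (Sum.inr j : Fin k ⊕ Fin l) = Sum.inr j0
        · rw [h, Function.update_self, Sum.inr.inj h]; exact he2
        · rw [Function.update_of_ne h]; exact h3 j (mem_erase.2 ⟨h, hj⟩)
      · rw [Function.update_of_ne Sum.inl_ne_inr]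
        by_cases h : (Sum.inr j : Fin k ⊕ Fin l) = Sum.inr j0
        · rw [h, Function.update_self, ← hu3 _ hi (h ▸ (hP i j hp).symm), ← he4]
          exact he3.mem
        · rw [Function.update_of_ne h]
          exact h4 i j (mem_erase.2 ⟨Sum.inl_ne_inr, hi⟩) (mem_erase.2 ⟨h, hj⟩) hp

end Pool.Agent.P.MP_1bff7a_co
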