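import Pool.Agent.P.MP_1bff7a_co.Defs
import Pool.Agent.P.MP_1bff7a_co.Dir
import Pool.Agent.P.MP_1bff7a_co.Embed

namespace Pool.Agent.P.MP_1bff7a_co

open Finset

lemma heavy {α : Type*} {η : ℝ} {K : ℕ} (hK : 0 < K) {E Z G : Finset α} (hZ : Z ⊆ E)
    (line pos : α → ℕ) (j : ℕ) (S0 : Finset ℕ)
    (hG : ∀ e, e ∈ G ↔ e ∈ Z ∧ S0 ⊆ S η K E line pos j (key K line pos (j + 1) e)) :
    ∀ e ∈ G, e ∉ bad η K E Z line pos j → ∀ b ∈ S0,
      η / 2 * #(fib G (key K line pos (j + 1)) (key K line pos (j + 1) e))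
        ≤ #((fib G (key K line pos (j + 1)) (key K line pos (j + 1) e)).filter
          (dig K pos j · = b)) := by
  classical
  intro e he hbad b hb
  obtain ⟨h1, h2⟩ := (hG e).1 he
  have h3 : fib G (key K line pos (j + 1)) (key K line pos (j + 1) e)
      = fib Z (key K line pos (j + 1)) (key K line pos (j + 1) e) := by
    ext z
    rw [mem_fib, mem_fib, hG]
    constructor
    · rintro ⟨⟨a1, _⟩, a3⟩; exact ⟨a1, a3⟩
    · rintro ⟨a1, a3⟩; exact ⟨⟨a1, by rw [a3]; exact h2⟩, a3⟩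
  rw [h3, ← fib_child hK Z line pos j _ (mem_S.1 (h2 hb)).1]
  by_contra hlt
  exact hbad (mem_filter.2 ⟨hZ h1, h1, b, h2 hb, not_le.1 hlt⟩)

lemma lt_of_digit {K j p q : ℕ} (h1 : p / K ^ (j + 1) = q / K ^ (j + 1))
    (h2 : p / K ^ j % K < q / K ^ j % K) : p < q := by
  rw [pow_succ, ← Nat.div_div_eq_div_mul, ← Nat.div_div_eq_div_mul] at h1
  have h3 : p / K ^ j < q / K ^ j := by
    have a1 := Nat.div_add_mod (p / K ^ j) K
    have a2 := Nat.div_add_mod (q / K ^ j) K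
    rw [h1] at a1
    omega
  exact lt_of_not_ge fun h => absurd (Nat.div_le_div_right h) (not_le.2 h3)

/-- The row index of an entry. -/
def rw' {n : ℕ} (e : Fin n × Fin n) : ℕ := e.1
/-- The column index of an entry. -/
def cl' {n : ℕ} (e : Fin n × Fin n) : ℕ := e.2

/-- The set of `1` entries. -/
def ones {n : ℕ} (A : Matrix (Fin n) (Fin n) Bool) : Finset (Fin n × Fin n) :=
  Finset.univ.filter fun p : Fin n × Fin n => A p.1 p.2 = true

/-- The elements whose class at level `j + 1` has all digits of `S0` heavy. -/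
noncomputable def Zs {α : Type*} (η : ℝ) (K : ℕ) (E : Finset α) (line pos : α → ℕ) (j : ℕ)
    (S0 : Finset ℕ) : Finset α :=
  E.filter fun e => S0 ⊆ S η K E line pos j (key K line pos (j + 1) e)

lemma local_bound {k l n : ℕ} (P : Matrix (Fin k) (Fin l) Bool) (hP : (rowColGraph P).IsAcyclic)
    (A : Matrix (Fin n) (Fin n) Bool) (hA : ¬ Contains A P) {η : ℝ} (hη : 0 < η) {K : ℕ}
    (hK : 0 < K) (S0 T0 : Finset ℕ) (hS : l ≤ #S0) (hT : k ≤ #T0) (i j : ℕ) :
    (#(Zs η K (ones A) rw' cl' j S0 ∩ Zs η K (ones A) cl' rw' i T0) : ℝ) ≤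
      (#(bad η K (ones A) (Zs η K (ones A) cl' rw' i T0) rw' cl' j) +
        #(bad η K (ones A) (Zs η K (ones A) rw' cl' j S0) cl' rw' i)) *
        (1 + 2 / (η / 2)) ^ (k + l) := by
  classical
  set G := Zs η K (ones A) rw' cl' j S0 ∩ Zs η K (ones A) cl' rw' i T0 with hG
  have h1 := heavy hK (G := G) (Z := Zs η K (ones A) cl' rw' i T0) (E := ones A) (η := η)
    (filter_subset _ _) rw' cl' j S0 (by
      intro e; simp only [hG, Zs, mem_inter, mem_filter]; tauto)
  have h2 := heavy hK (G := G) (Z := Zs η K (ones A) rw' cl' j S0) (E := ones A) (η := η)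
    (filter_subset _ _) cl' rw' i T0 (by
      intro e; simp only [hG, Zs, mem_inter, mem_filter]; tauto)
  have h3 := prune G (key K rw' cl' (j + 1)) (key K cl' rw' (i + 1)) (dig K cl' j) (dig K rw' i)
    S0 T0 (bad η K (ones A) (Zs η K (ones A) cl' rw' i T0) rw' cl' j ∪
      bad η K (ones A) (Zs η K (ones A) rw' cl' j S0) cl' rw' i) (ρ := η / 2) (by positivity)
    (fun e he hD => h1 e he fun h => hD (mem_union_left _ h))
    (fun e he hD => h2 e he fun h => hD (mem_union_right _ h)) (k + l)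
  have h4 : (G.filter fun e => ¬ Good G (key K rw' cl' (j + 1)) (key K cl' rw' (i + 1))
      (dig K cl' j) (dig K rw' i) S0 T0 (k + l) e) = G := by
    refine filter_true_of_mem fun e0 _ hgood => hA ?_
    obtain ⟨φ, g1, g2, g3, g4⟩ := embed (fun a b => P a b = true) (rowColGraph P) hP
      (fun a b hab => by
        rw [rowColGraph, SimpleGraph.fromRel_adj]
        exact ⟨Sum.inl_ne_inr, Or.inl ⟨a, b, rfl, rfl, hab⟩⟩)
      G (key K rw' cl' (j + 1)) (key K cl' rw' (i + 1)) (dig K cl' j) (dig K rw' i) S0 T0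
      (fun e => (rw' e / K ^ (i + 1), cl' e / K ^ (j + 1)))
      (fun e e' h => by
        simp only [key, Prod.mk.injEq] at h ⊢
        exact ⟨Fin.ext h.1, by rw [h.1], h.2⟩)
      (fun e e' h => by
        simp only [key, Prod.mk.injEq] at h ⊢
        exact ⟨Fin.ext h.1, h.2, by rw [h.1]⟩)
      (T0.orderEmbOfCardLe hT) (S0.orderEmbOfCardLe hS) (T0.orderEmbOfCardLe_mem hT)
      (S0.orderEmbOfCardLe_mem hS) e0 (k + l) univ (by simp) 0 (by rwa [zero_add])
    refine ⟨fun a => (φ (Sum.inl a)).1, fun b => (φ (Sum.inr b)).2, fun a a' h => ?_,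
      fun b b' h => ?_, fun a b hab => ?_⟩
    · have e1 := congrArg Prod.fst ((g1 (Sum.inl a) (mem_univ _)).2.trans
        (g1 (Sum.inl a') (mem_univ _)).2.symm)
      have e2 := (T0.orderEmbOfCardLe hT).strictMono h
      rw [← g2 a (mem_univ _), ← g2 a' (mem_univ _)] at e2
      exact lt_of_digit (K := K) (j := i) e1 e2
    · have e1 := congrArg Prod.snd ((g1 (Sum.inr b) (mem_univ _)).2.trans
        (g1 (Sum.inr b') (mem_univ _)).2.symm)
      have e2 := (S0.orderEmbOfCardLe hS).strictMono h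
      rw [← g3 b (mem_univ _), ← g3 b' (mem_univ _)] at e2
      exact lt_of_digit (K := K) (j := j) e1 e2
    · have := g4 a b (mem_univ _) (mem_univ _) hab
      exact (mem_filter.1 (mem_filter.1 (mem_inter.1 this).1).1).2
  rw [h4] at h3
  refine h3.trans (mul_le_mul_of_nonneg_right ?_ (by positivity))
  exact_mod_cast card_union_le _ _

lemma sum_bad_le {α : Type*} {η θ : ℝ} (hη : 0 < η) (hθ : 0 < θ) {K : ℕ} (hK : 0 < K) (d : ℕ)
    {E Z : Finset α} (hZ : Z ⊆ E) (line pos : α → ℕ) :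
    ∑ j ∈ range d, (#(bad η K E Z line pos j) : ℝ) ≤ (d * θ + 4 / (η * θ)) * #E := by
  refine (sum_le_sum fun j _ => card_bad_le hη hθ hK E Z line pos j).trans ?_
  rw [sum_add_distrib, sum_const, card_range, nsmul_eq_mul, ← mul_sum]
  have := mul_le_mul_of_nonneg_left (sum_gap_le K d hZ line pos)
    (show 0 ≤ 4 / (η * θ) by positivity)
  linarith

lemma rich_le {α : Type*} [DecidableEq α] (η : ℝ) (K L d : ℕ) (E : Finset α) (line pos : α → ℕ) {e : α}
    (he : e ∈ E) :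
    (#(rich η K L d E line pos e) : ℝ) ≤ ∑ S0 ∈ powersetCard L (range K), ∑ j ∈ range d,
      if e ∈ Zs η K E line pos j S0 then (1 : ℝ) else 0 := by
  rw [sum_comm, rich, ← sum_boole]
  refine sum_le_sum fun j _ => ?_
  split_ifs with h
  · obtain ⟨S0, h1, h2⟩ := exists_subset_card_eq h
    have h3 : S0 ∈ powersetCard L (range K) :=
      mem_powersetCard.2 ⟨fun b hb => mem_range.2 (mem_S.1 (h1 hb)).1, h2⟩
    refine le_trans ?_ (single_le_sum (f := fun S0 => if e ∈ Zs η K E line pos j S0 then (1 : ℝ)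
      else 0) (fun _ _ => by split_ifs <;> norm_num) h3)
    have h4 : e ∈ Zs η K E line pos j S0 := mem_filter.2 ⟨he, h1⟩
    rw [if_pos h4]
  · exact sum_nonneg fun _ _ => by split_ifs <;> norm_num

lemma few_poor {α : Type*} {K L g : ℕ} (hK : 0 < K) (hL : 0 < L) (hg : 0 < g) (d n : ℕ)
    (E : Finset α) (line pos : α → ℕ) (hline : ∀ e ∈ E, line e < n) (hpos : ∀ e ∈ E, pos e < K ^ d)
    (hinj : ∀ e ∈ E, ∀ e' ∈ E, line e = line e' → pos e = pos e' → e = e')
    (hE : (8 * (n * ((2 * K) ^ (2 * (d / g)) * (2 * L) ^ d)) : ℝ) ≤ #E) :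
    (#(E.filter fun e => #(rich (1 / (8 * g * K)) K L d E line pos e) ≤ d / g) : ℝ) ≤ #E / 4 := by
  classical
  have h1 := poor (1 / (8 * g * K)) hK hL d (d / g) n E line pos hline hpos hinj
  have h2 := markov (η := 1 / (8 * g * K)) (by positivity) hK d (d / g) E line pos
  have hK' : (0 : ℝ) < K := by exact_mod_cast hK
  have hg' : (0 : ℝ) < g := by exact_mod_cast hg
  have h3 : (d : ℝ) ≤ g * (((d / g : ℕ) : ℝ) + 1) := by
    have := Nat.lt_mul_div_succ d hg
    exact_mod_cast this.le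
  have h4 : (d : ℝ) * (K * (1 / (8 * g * K)) * #E) ≤ (((d / g : ℕ) : ℝ) + 1) * (#E / 8) := by
    have e : (d : ℝ) * (K * (1 / (8 * g * K)) * #E) = d / g * (#E / 8) := by field_simp
    rw [e]
    refine mul_le_mul_of_nonneg_right ?_ (by positivity)
    rw [div_le_iff₀ hg']; linarith
  have h5 := le_of_mul_le_mul_left (h2.trans h4) (by positivity)
  have hsub : (E.filter fun e => #(rich (1 / (8 * g * K)) K L d E line pos e) ≤ d / g) ⊆
      (E.filter fun e => #(rich (1 / (8 * g * K)) K L d E line pos e) ≤ d / g ∧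
        #(outs (1 / (8 * g * K)) K d E line pos e) ≤ d / g) ∪
      (E.filter fun e => d / g < #(outs (1 / (8 * g * K)) K d E line pos e)) := by
    intro e he
    obtain ⟨a1, a2⟩ := mem_filter.1 he
    rcases le_or_gt (#(outs (1 / (8 * g * K)) K d E line pos e)) (d / g) with h | h
    · exact mem_union_left _ (mem_filter.2 ⟨a1, a2, h⟩)
    · exact mem_union_right _ (mem_filter.2 ⟨a1, h⟩)
  have h6 := (Nat.cast_le (α := ℝ)).2 ((card_le_card hsub).trans (card_union_le _ _))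
  rw [Nat.cast_add] at h6
  linarith

theorem core {k l : ℕ} (P : Matrix (Fin k) (Fin l) Bool) (hP : (rowColGraph P).IsAcyclic)
    {K L g : ℕ} (hK : 0 < K) (hL : 0 < L) (hg : 0 < g) (hk : k ≤ L) (hl : l ≤ L) :
    ∃ d0 : ℕ, ∀ d, d0 ≤ d → ∀ n, n ≤ K ^ d → ∀ A : Matrix (Fin n) (Fin n) Bool, ¬ Contains A P →
      (weight A : ℝ) ≤ 8 * (n * ((2 * K) ^ (2 * (d / g)) * (2 * L) ^ d)) := by
  classical
  have hK' : (0 : ℝ) < K := by exact_mod_cast hK
  have hg' : (0 : ℝ) < g := by exact_mod_cast hg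
  set η : ℝ := 1 / (8 * g * K) with hηdef
  have hη : 0 < η := by positivity
  set a : ℝ := (1 + 2 / (η / 2)) ^ (k + l) with ha
  have ha0 : 0 < a := by positivity
  set Q : ℝ := ((#(powersetCard L (range K)) : ℕ) : ℝ) with hQ
  have hQ0 : 0 ≤ Q := by positivity
  set θ : ℝ := 1 / (8 * g ^ 2 * (Q ^ 2 + 1) * a) with hθdef
  have hθ : 0 < θ := by positivity
  obtain ⟨d0, hd0⟩ := exists_nat_gt (32 * g ^ 2 * Q ^ 2 * a / (η * θ))
  refine ⟨d0, fun d hd n hn A hA => ?_⟩
  by_contra hcon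
  have hw : weight A = #(ones A) := rfl
  rw [hw, not_le] at hcon
  set E := ones A with hE
  have hEpos : (0 : ℝ) < #E := lt_of_le_of_lt (by positivity) hcon
  have hd' : 32 * g ^ 2 * Q ^ 2 * a / (η * θ) < d := hd0.trans_le (by exact_mod_cast hd)
  have hdpos : (0 : ℝ) < d := lt_of_le_of_lt (by positivity) hd'
  have p1 := few_poor hK hL hg d n E rw' cl' (fun e _ => e.1.2) (fun e _ => e.2.2.trans_le hn)
    (fun e _ e' _ h1 h2 => Prod.ext (Fin.ext h1) (Fin.ext h2)) hcon.le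
  have p2 := few_poor hK hL hg d n E cl' rw' (fun e _ => e.2.2) (fun e _ => e.1.2.trans_le hn)
    (fun e _ e' _ h1 h2 => Prod.ext (Fin.ext h2) (Fin.ext h1)) hcon.le
  rw [← hηdef] at p1 p2
  have h3 : (d : ℝ) / g ≤ ((d / g : ℕ) : ℝ) + 1 := by
    have := Nat.lt_mul_div_succ d hg
    have h : (d : ℝ) ≤ g * (((d / g : ℕ) : ℝ) + 1) := by exact_mod_cast this.le
    rw [div_le_iff₀ hg']; linarith
  have low : ((d : ℝ) / g) ^ 2 * (#E / 2) ≤
      ∑ e ∈ E, (#(rich η K L d E rw' cl' e) : ℝ) * #(rich η K L d E cl' rw' e) := by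
    let F := E.filter fun e => d / g < #(rich η K L d E rw' cl' e) ∧
      d / g < #(rich η K L d E cl' rw' e)
    have hsub : E ⊆ F ∪ ((E.filter fun e => #(rich η K L d E rw' cl' e) ≤ d / g) ∪
        (E.filter fun e => #(rich η K L d E cl' rw' e) ≤ d / g)) := by
      intro e he
      simp only [F, mem_union, mem_filter, he, true_and]
      omega
    have h1 := (Nat.cast_le (α := ℝ)).2 ((card_le_card hsub).trans ((card_union_le _ _).trans
      (Nat.add_le_add_left (card_union_le _ _) _)))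
    rw [Nat.cast_add, Nat.cast_add] at h1
    have h2 : (#E : ℝ) / 2 ≤ #F := by linarith
    refine le_trans ?_ (sum_le_sum_of_subset_of_nonneg (filter_subset _ E : F ⊆ E)
      fun _ _ _ => by positivity)
    refine le_trans (mul_le_mul_of_nonneg_left h2 (by positivity)) ?_
    rw [mul_comm, ← nsmul_eq_mul, ← sum_const]
    refine sum_le_sum fun e he => ?_
    obtain ⟨_, a1, a2⟩ := mem_filter.1 he
    have b1 : ((d / g : ℕ) : ℝ) + 1 ≤ #(rich η K L d E rw' cl' e) := by exact_mod_cast a1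
    have b2 : ((d / g : ℕ) : ℝ) + 1 ≤ #(rich η K L d E cl' rw' e) := by exact_mod_cast a2
    rw [sq]
    exact mul_le_mul (h3.trans b1) (h3.trans b2) (by positivity) (by positivity)
  have mid : ∑ e ∈ E, (#(rich η K L d E rw' cl' e) : ℝ) * #(rich η K L d E cl' rw' e) ≤
      ∑ S0 ∈ powersetCard L (range K), ∑ T0 ∈ powersetCard L (range K), ∑ j ∈ range d,
        ∑ i ∈ range d, (#(Zs η K E rw' cl' j S0 ∩ Zs η K E cl' rw' i T0) : ℝ) := by
    have h1 : ∀ S0 T0 j i, (#(Zs η K E rw' cl' j S0 ∩ Zs η K E cl' rw' i T0) : ℝ) =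
        ∑ e ∈ E, (if e ∈ Zs η K E rw' cl' j S0 then (1 : ℝ) else 0) *
          (if e ∈ Zs η K E cl' rw' i T0 then (1 : ℝ) else 0) := by
      intro S0 T0 j i
      have : Zs η K E rw' cl' j S0 ∩ Zs η K E cl' rw' i T0 = E.filter fun e =>
          e ∈ Zs η K E rw' cl' j S0 ∧ e ∈ Zs η K E cl' rw' i T0 := by
        ext e
        rw [mem_inter, mem_filter (s := E)]
        exact ⟨fun h => ⟨(mem_filter.1 h.1).1, h⟩, fun h => h.2⟩
      rw [this, ← sum_boole]
      refine sum_congr rfl fun e _ => ?_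
      by_cases c1 : e ∈ Zs η K E rw' cl' j S0 <;> by_cases c2 : e ∈ Zs η K E cl' rw' i T0 <;>
        simp [c1, c2]
    simp only [h1]
    simp only [sum_comm (t := E)]
    refine sum_le_sum fun e he => ?_
    refine le_trans (mul_le_mul (rich_le η K L d E rw' cl' he) (rich_le η K L d E cl' rw' he)
      (by positivity) (sum_nonneg fun _ _ => sum_nonneg fun _ _ => by split_ifs <;> norm_num)) ?_
    rw [sum_mul_sum]
    refine le_of_eq (sum_congr rfl fun S0 _ => sum_congr rfl fun T0 _ => ?_)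
    rw [sum_mul_sum]
  have up : ∀ S0 ∈ powersetCard L (range K), ∀ T0 ∈ powersetCard L (range K), ∑ j ∈ range d,
      ∑ i ∈ range d, (#(Zs η K E rw' cl' j S0 ∩ Zs η K E cl' rw' i T0) : ℝ)
        ≤ 2 * (d * ((d * θ + 4 / (η * θ)) * #E)) * a := by
    intro S0 hS T0 hT
    refine le_trans (sum_le_sum fun j _ => sum_le_sum fun i _ => local_bound P hP A hA hη hK S0 T0
      (by rw [(mem_powersetCard.1 hS).2]; exact hl) (by rw [(mem_powersetCard.1 hT).2]; exact hk)
      i j) ?_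
    simp only [← sum_mul, sum_add_distrib]
    refine mul_le_mul_of_nonneg_right ?_ ha0.le
    have b1 : ∑ j ∈ range d, ∑ i ∈ range d,
        (#(bad η K E (Zs η K E cl' rw' i T0) rw' cl' j) : ℝ) ≤ d * ((d * θ + 4 / (η * θ)) * #E) := by
      rw [sum_comm]
      refine le_trans (sum_le_sum fun i _ => sum_bad_le hη hθ hK d (filter_subset _ _) rw' cl') ?_
      simp
    have b2 : ∑ j ∈ range d, ∑ i ∈ range d,
        (#(bad η K E (Zs η K E rw' cl' j S0) cl' rw' i) : ℝ) ≤ d * ((d * θ + 4 / (η * θ)) * #E) := by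
      refine le_trans (sum_le_sum fun i _ => sum_bad_le hη hθ hK d (filter_subset _ _) cl' rw') ?_
      simp
    linarith
  have fin := low.trans (mid.trans (sum_le_sum fun S0 hS => sum_le_sum fun T0 hT => up S0 hS T0 hT))
  rw [sum_const, sum_const, nsmul_eq_mul, nsmul_eq_mul, ← hQ] at fin
  have e1 : Q * (Q * (2 * (d * ((d * θ + 4 / (η * θ)) * #E)) * a))
      = (d * #E) * (2 * (Q ^ 2 * a * θ) * d + 8 * Q ^ 2 * a / (η * θ)) := by ring
  have e2 : ((d : ℝ) / g) ^ 2 * (#E / 2) = (d * #E) * (d / (2 * g ^ 2)) := by field_simp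
  rw [e1, e2] at fin
  have f1 := le_of_mul_le_mul_left fin (by positivity)
  have f2 : Q ^ 2 * a * θ ≤ 1 / (8 * g ^ 2) := by
    have : Q ^ 2 * a * θ = Q ^ 2 / (Q ^ 2 + 1) * (1 / (8 * g ^ 2)) := by
      rw [hθdef]; field_simp
    rw [this]
    refine mul_le_of_le_one_left (by positivity) ?_
    rw [div_le_one (by positivity)]; linarith
  have f3 : 2 * (Q ^ 2 * a * θ) * d ≤ 2 * (1 / (8 * g ^ 2)) * d := by gcongr
  have f4 : 8 * Q ^ 2 * a / (η * θ) < d / (4 * g ^ 2) := by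
    rw [lt_div_iff₀ (by positivity)]
    have : 8 * Q ^ 2 * a / (η * θ) * (4 * g ^ 2) = 32 * g ^ 2 * Q ^ 2 * a / (η * θ) := by ring
    rw [this]; exact hd'
  have f5 : (d : ℝ) / (2 * g ^ 2) = 2 * (1 / (8 * g ^ 2)) * d + d / (4 * g ^ 2) := by
    field_simp; ring
  linarith

theorem Ex_le {k l : ℕ} (P : Matrix (Fin k) (Fin l) Bool) (n : ℕ) {B : ℝ} (hB : 0 ≤ B)
    (h : ∀ A : Matrix (Fin n) (Fin n) Bool, ¬ Contains A P → (weight A : ℝ) ≤ B) :
    (Ex P n : ℝ) ≤ B := by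
  have : Ex P n ≤ ⌊B⌋₊ := by
    refine csSup_le' ?_
    rintro w ⟨A, hA, rfl⟩
    exact Nat.le_floor (h A hA)
  exact le_trans (by exact_mod_cast this) (Nat.floor_le hB)

theorem main {k l : ℕ} (P : Matrix (Fin k) (Fin l) Bool) (hP : (rowColGraph P).IsAcyclic)
    (c : ℝ) (hc : 1 < c) :
    (fun n : ℕ => (Ex P n : ℝ)) =o[Filter.atTop] fun n : ℕ => (n : ℝ) ^ c := by
  rw [Asymptotics.isLittleO_iff]
  intro ε hε
  set L := k + l + 1 with hL
  set W := 2 * L with hW
  have hW2 : 2 ≤ W := by omega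
  obtain ⟨g, hg⟩ := exists_nat_gt (6 / (c - 1))
  have hc0 : 0 < c - 1 := by linarith
  have hg' : (0 : ℝ) < g := lt_trans (by positivity) hg
  have hg0 : 0 < g := by exact_mod_cast hg'
  rw [div_lt_iff₀ hc0] at hg
  set K := W ^ g with hKdef
  have hK2 : 2 ≤ K := hW2.trans (Nat.le_self_pow hg0.ne' W)
  obtain ⟨d0, hd0⟩ := core P hP (K := K) (L := L) (g := g) (by omega) (by omega) hg0 (by omega)
    (by omega)
  have hW1 : (1 : ℝ) < W := by exact_mod_cast hW2
  obtain ⟨d1, hd1⟩ := pow_unbounded_of_one_lt (8 * (W : ℝ) ^ 5 / ε) hW1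
  filter_upwards [Filter.eventually_ge_atTop (K ^ (d0 + d1))] with n hn
  have hn0 : n ≠ 0 := by
    have : 0 < K ^ (d0 + d1) := by positivity
    omega
  set m := Nat.log K n with hm
  have hm1 : d0 + d1 ≤ m := Nat.le_log_of_pow_le (by omega) hn
  have hm2 : K ^ m ≤ n := Nat.pow_log_le_self K hn0
  have hm3 : n < K ^ (m + 1) := Nat.lt_pow_succ_log_self (by omega) n
  have hnpos : (0 : ℝ) < n := by positivity
  have h1 := Ex_le P n (by positivity) (hd0 (m + 1) (by omega) n hm3.le)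
  rw [Real.norm_of_nonneg (by positivity), Real.norm_of_nonneg (by positivity)]
  refine h1.trans ?_
  have h2 : ((2 * K) ^ (2 * ((m + 1) / g)) * (2 * L) ^ (m + 1) : ℕ) ≤ W ^ (5 * (m + 1)) := by
    have a1 : (2 * K) ^ (2 * ((m + 1) / g)) ≤ (K ^ 2) ^ (2 * ((m + 1) / g)) :=
      Nat.pow_le_pow_left (by nlinarith) _
    have a2 : (K ^ 2) ^ (2 * ((m + 1) / g)) ≤ W ^ (4 * (m + 1)) := by
      rw [hKdef, ← pow_mul, ← pow_mul]
      refine Nat.pow_le_pow_right (by omega) ?_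
      have := Nat.mul_div_le (m + 1) g
      nlinarith
    calc _ ≤ W ^ (4 * (m + 1)) * W ^ (m + 1) := Nat.mul_le_mul (a1.trans a2) le_rfl
      _ = _ := by rw [← pow_add]; congr 1; ring
  have h3 : ((2 * K) ^ (2 * ((m + 1) / g)) * (2 * L) ^ (m + 1) : ℝ) ≤ W ^ (5 * (m + 1)) := by
    exact_mod_cast h2
  have h4 : (W : ℝ) ^ (6 * m) ≤ (n : ℝ) ^ (c - 1) := by
    have a1 : ((W : ℝ) ^ (g * m)) ≤ n := by
      rw [hKdef, ← pow_mul] at hm2
      exact_mod_cast hm2
    refine le_trans ?_ (Real.rpow_le_rpow (by positivity) a1 hc0.le)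
    rw [← Real.rpow_natCast, ← Real.rpow_natCast, ← Real.rpow_mul (by positivity)]
    refine Real.rpow_le_rpow_of_exponent_le hW1.le ?_
    push_cast
    have : (0 : ℝ) ≤ m := by positivity
    nlinarith
  have h5 : (n : ℝ) ^ c = n * n ^ (c - 1) := by
    rw [Real.rpow_sub_one hnpos.ne']; field_simp
  have h6 : 8 * (W : ℝ) ^ 5 ≤ ε * W ^ m := by
    rw [div_lt_iff₀ hε] at hd1
    have : (W : ℝ) ^ d1 ≤ W ^ m := pow_le_pow_right₀ hW1.le (by omega)
    nlinarith
  have h7 : 8 * (W : ℝ) ^ (5 * (m + 1)) ≤ ε * W ^ (6 * m) := by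
    calc 8 * (W : ℝ) ^ (5 * (m + 1)) = (8 * W ^ 5) * W ^ (5 * m) := by ring
      _ ≤ (ε * W ^ m) * W ^ (5 * m) := by gcongr
      _ = ε * W ^ (6 * m) := by ring
  rw [h5]
  calc _ ≤ 8 * (n * (W : ℝ) ^ (5 * (m + 1))) := by gcongr
    _ = n * (8 * (W : ℝ) ^ (5 * (m + 1))) := by ring
    _ ≤ n * (ε * W ^ (6 * m)) := by gcongr
    _ ≤ n * (ε * n ^ (c - 1)) := by gcongr
    _ = _ := by ring

end Pool.Agent.P.MP_1bff7a_co
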