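import Mathlib

/-!
Forbidden 0-1 matrix patterns: the definitions of the problem.
A 0-1 matrix is a matrix with entries in `Bool`, the entry `true` standing for `1`.
-/

namespace Pool.Agent.P.MP_1bff7a_co

/-- `A` contains `P`: there are rows `r 0 < r 1 < ⋯` and columns `c 0 < c 1 < ⋯` of `A` with
`A (r i) (c j) = 1` whenever `P i j = 1`. -/
def Contains {n k l : ℕ} (A : Matrix (Fin n) (Fin n) Bool) (P : Matrix (Fin k) (Fin l) Bool) :
    Prop :=
  ∃ (r : Fin k → Fin n) (c : Fin l → Fin n), StrictMono r ∧ StrictMono c ∧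
    ∀ i j, P i j = true → A (r i) (c j) = true

/-- The number of `1` entries of `A`. -/
def weight {n : ℕ} (A : Matrix (Fin n) (Fin n) Bool) : ℕ :=
  (Finset.univ.filter fun p : Fin n × Fin n => A p.1 p.2 = true).card

/-- `Ex(P,n)`: the largest number of `1` entries in an `n × n` 0-1 matrix that avoids `P`. -/
noncomputable def Ex {k l : ℕ} (P : Matrix (Fin k) (Fin l) Bool) (n : ℕ) : ℕ :=
  sSup {w : ℕ | ∃ A : Matrix (Fin n) (Fin n) Bool, ¬ Contains A P ∧ weight A = w}

/-- The bipartite graph on the rows and columns of `P`, row `i` being joined to column `j`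
exactly when `P i j = 1`. -/
def rowColGraph {k l : ℕ} (P : Matrix (Fin k) (Fin l) Bool) : SimpleGraph (Fin k ⊕ Fin l) :=
  SimpleGraph.fromRel fun u v => ∃ i j, u = Sum.inl i ∧ v = Sum.inr j ∧ P i j = true

end Pool.Agent.P.MP_1bff7a_co
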