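import Mathlib

namespace Pool.Agent.P.MP_1bff7a_co

open Finset

variable {α β γ : Type*} [DecidableEq β] [DecidableEq γ]

/-- The fibre of `κ` over `h` inside `E`. -/
def fib (E : Finset α) (κ : α → β) (h : β) : Finset α := E.filter fun e => κ e = h

lemma mem_fib {E : Finset α} {κ : α → β} {h : β} {e : α} : e ∈ fib E κ h ↔ e ∈ E ∧ κ e = h := by
  simp [fib]

lemma fib_card_pos {E : Finset α} (κ : α → β) {e : α} (he : e ∈ E) :
    (0 : ℝ) < #(fib E κ (κ e)) := by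
  have : (fib E κ (κ e)).Nonempty := ⟨e, mem_fib.2 ⟨he, rfl⟩⟩
  exact_mod_cast this.card_pos

lemma fib_mono {E Z : Finset α} (hZ : Z ⊆ E) (κ : α → β) (h : β) : fib Z κ h ⊆ fib E κ h :=
  filter_subset_filter _ hZ

lemma sum_eq_sum_fib (E : Finset α) (κ : α → β) (f : α → ℝ) :
    ∑ x ∈ E, f x = ∑ h ∈ E.image κ, ∑ x ∈ fib E κ h, f x :=
  (sum_fiberwise_of_maps_to (fun _ hx => mem_image_of_mem κ hx) f).symm

lemma sum_le_of_fib (E : Finset α) (κ : α → β) (f g : α → ℝ)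
    (H : ∀ e ∈ E, ∑ x ∈ fib E κ (κ e), f x ≤ ∑ x ∈ fib E κ (κ e), g x) :
    ∑ x ∈ E, f x ≤ ∑ x ∈ E, g x := by
  rw [sum_eq_sum_fib E κ f, sum_eq_sum_fib E κ g]
  refine sum_le_sum fun h hh => ?_
  obtain ⟨e, he, rfl⟩ := mem_image.1 hh
  exact H e he

/-- Counting form of the fibre comparison. -/
lemma card_le_of_fib (E : Finset α) (κ : α → β) (p : α → Prop) [DecidablePred p] (g : α → ℝ)
    (H : ∀ e ∈ E, (#((fib E κ (κ e)).filter p) : ℝ) ≤ ∑ x ∈ fib E κ (κ e), g x) :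
    (#(E.filter p) : ℝ) ≤ ∑ x ∈ E, g x := by
  have h1 : ∀ F : Finset α, (#(F.filter p) : ℝ) = ∑ x ∈ F, if p x then (1 : ℝ) else 0 := by
    intro F; simp
  rw [h1]
  refine sum_le_of_fib E κ _ _ fun e he => ?_
  rw [← h1]; exact H e he

/-- The density of `Z` in the fibre over `h`. -/
noncomputable def dens (E Z : Finset α) (κ : α → β) (h : β) : ℝ :=
  (#(fib Z κ h) : ℝ) / #(fib E κ h)

lemma dens_nonneg (E Z : Finset α) (κ : α → β) (h : β) : 0 ≤ dens E Z κ h := by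
  unfold dens; positivity

lemma dens_le_one {E Z : Finset α} (hZ : Z ⊆ E) (κ : α → β) (h : β) : dens E Z κ h ≤ 1 := by
  unfold dens
  apply div_le_one_of_le₀ _ (by positivity)
  exact_mod_cast card_le_card (fib_mono hZ κ h)

lemma tower {E Z : Finset α} (hZ : Z ⊆ E) (κ : α → β) (φ : β → ℝ) :
    ∑ e ∈ E, φ (κ e) * dens E Z κ (κ e) = ∑ e ∈ Z, φ (κ e) := by
  rw [sum_eq_sum_fib E κ,
    ← sum_fiberwise_of_maps_to (t := E.image κ) (g := κ)
      (fun x hx => mem_image_of_mem κ (hZ hx)) (fun e => φ (κ e))]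
  refine sum_congr rfl fun h hh => ?_
  obtain ⟨e, he, rfl⟩ := mem_image.1 hh
  have h1 : ∑ x ∈ fib E κ (κ e), φ (κ x) * dens E Z κ (κ x)
      = ∑ x ∈ fib E κ (κ e), φ (κ e) * dens E Z κ (κ e) :=
    sum_congr rfl fun x hx => by rw [(mem_fib.1 hx).2]
  have h2 : ∑ x ∈ Z with κ x = κ e, φ (κ x) = ∑ x ∈ fib Z κ (κ e), φ (κ e) :=
    sum_congr rfl fun x hx => by rw [(mem_fib.1 hx).2]
  rw [h1, h2, sum_const, sum_const, nsmul_eq_mul, nsmul_eq_mul, dens]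
  have := fib_card_pos κ he
  field_simp

lemma energy_step {E Z : Finset α} (hZ : Z ⊆ E) (κ : α → β) (κ' : α → γ) (π : β → γ)
    (hπ : ∀ e, κ' e = π (κ e)) :
    ∑ e ∈ E, (dens E Z κ (κ e) - dens E Z κ' (κ' e)) ^ 2
      = ∑ e ∈ E, dens E Z κ (κ e) ^ 2 - ∑ e ∈ E, dens E Z κ' (κ' e) ^ 2 := by
  have h1 := tower hZ κ (fun h => dens E Z κ' (π h))
  have h2 := tower hZ κ' (fun h => dens E Z κ' h)
  simp only [← hπ] at h1
  have h3 : ∑ e ∈ E, (dens E Z κ (κ e) - dens E Z κ' (κ' e)) ^ 2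
      = ∑ e ∈ E, dens E Z κ (κ e) ^ 2 - 2 * ∑ e ∈ E, dens E Z κ' (κ' e) * dens E Z κ (κ e)
        + ∑ e ∈ E, dens E Z κ' (κ' e) * dens E Z κ' (κ' e) := by
    rw [mul_sum, ← sum_sub_distrib, ← sum_add_distrib]
    exact sum_congr rfl fun e _ => by ring
  have h4 : ∑ e ∈ E, dens E Z κ' (κ' e) ^ 2 = ∑ e ∈ E, dens E Z κ' (κ' e) * dens E Z κ' (κ' e) :=
    sum_congr rfl fun e _ => by ring
  rw [h3, h4, h1, h2]; ring

lemma sum_range_mul' (K : ℕ) (f : ℕ → ℝ) (M : ℕ) :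
    ∑ p ∈ range (K * M), f p = ∑ q ∈ range M, ∑ b ∈ range K, f (K * q + b) := by
  induction M with
  | zero => simp
  | succ M ih => rw [Nat.mul_succ, sum_range_add, ih, sum_range_succ]

lemma sum_prod_le_one {K : ℕ} (hK : 0 < K) (d : ℕ) : ∀ w : ℕ → ℕ → ℕ → ℝ,
    (∀ j q b, 0 ≤ w j q b) → (∀ j q, ∑ b ∈ range K, w j q b ≤ 1) →
    ∑ p ∈ range (K ^ d), ∏ j ∈ range d, w j (p / K ^ (j + 1)) (p / K ^ j % K) ≤ 1 := by
  induction d with
  | zero => intro w _ _; simp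
  | succ d ih =>
    intro w h0 h1
    rw [pow_succ', sum_range_mul']
    refine le_trans (sum_le_sum fun q _ => ?_) (ih (fun j => w (j + 1)) (fun j => h0 (j + 1))
      (fun j => h1 (j + 1)))
    have hdiv : ∀ b ∈ range K, ∀ j, (K * q + b) / K ^ (j + 1) = q / K ^ j := by
      intro b hb j
      rw [pow_succ', ← Nat.div_div_eq_div_mul, Nat.mul_add_div hK,
        Nat.div_eq_of_lt (mem_range.1 hb), add_zero]
    have he : ∀ b ∈ range K, ∏ j ∈ range (d + 1),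
        w j ((K * q + b) / K ^ (j + 1)) ((K * q + b) / K ^ j % K)
        = (∏ j ∈ range d, w (j + 1) (q / K ^ (j + 1)) (q / K ^ j % K)) * w 0 q b := by
      intro b hb
      rw [prod_range_succ']
      congr 1
      · exact prod_congr rfl fun j _ => by rw [hdiv b hb, hdiv b hb]
      · rw [hdiv b hb]
        simp [Nat.mod_eq_of_lt (mem_range.1 hb)]
    rw [sum_congr rfl he, ← mul_sum]
    exact mul_le_of_le_one_right (prod_nonneg fun j _ => h0 _ _ _) (h1 0 q)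

end Pool.Agent.P.MP_1bff7a_co
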