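import Pool.Agent.P.MP_1bff7a_co.Core

/-! The special case asked in the problem: the 4 × 4 pattern `M`. -/

namespace Pool.Agent.P.MP_1bff7a_co

/-- The pattern `M` of the problem. -/
def M : Matrix (Fin 4) (Fin 4) Bool :=
  !![true, false, true, false; false, true, false, true; false, false, true, false;
    true, false, false, true]

/-- Adjacency of the row-column graph of `M` as a Boolean function. -/
def adjB : Fin 4 ⊕ Fin 4 → Fin 4 ⊕ Fin 4 → Bool
  | .inl i, .inr j => M i j
  | .inr j, .inl i => M i j
  | _, _ => false

instance : DecidableRel (rowColGraph M).Adj := fun u v =>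
  decidable_of_iff (adjB u v = true) (by
    unfold rowColGraph
    rw [SimpleGraph.fromRel_adj]
    rcases u with u | u <;> rcases v with v | v <;> simp [adjB])

theorem M_acyclic : (rowColGraph M).IsAcyclic := by
  have hc : (rowColGraph M).Connected := by
    have a1 : (rowColGraph M).Adj (.inl 0) (.inr 0) := by decide
    have a2 : (rowColGraph M).Adj (.inl 0) (.inr 2) := by decide
    have a3 : (rowColGraph M).Adj (.inr 2) (.inl 2) := by decide
    have a4 : (rowColGraph M).Adj (.inr 0) (.inl 3) := by decide
    have a5 : (rowColGraph M).Adj (.inl 3) (.inr 3) := by decide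
    have a6 : (rowColGraph M).Adj (.inr 3) (.inl 1) := by decide
    have a7 : (rowColGraph M).Adj (.inl 1) (.inr 1) := by decide
    rw [SimpleGraph.connected_iff_exists_forall_reachable]
    refine ⟨.inl 0, ?_⟩
    have r3 := a1.reachable.trans a4.reachable
    have c3 := r3.trans a5.reachable
    have r1 := c3.trans a6.reachable
    rintro (i | j)
    · fin_cases i
      · exact SimpleGraph.Reachable.refl _
      · exact r1
      · exact a2.reachable.trans a3.reachable
      · exact r3
    · fin_cases j
      · exact a1.reachable
      · exact r1.trans a7.reachable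
      · exact a2.reachable
      · exact c3
  have ht : (rowColGraph M).IsTree := by
    rw [SimpleGraph.isTree_iff_connected_and_card]
    refine ⟨hc, ?_⟩
    rw [Nat.card_eq_fintype_card, Nat.card_eq_fintype_card, SimpleGraph.card_edgeSet]
    have := (rowColGraph M).sum_degrees_eq_twice_card_edges
    have h2 : ∑ v, (rowColGraph M).degree v = 14 := by decide
    simp only [Fintype.card_sum, Fintype.card_fin]
    omega
  exact ht.isAcyclic

theorem pretzel (c : ℝ) (hc : 1 < c) :
    (fun n : ℕ => (Ex M n : ℝ)) =o[Filter.atTop] fun n : ℕ => (n : ℝ) ^ c :=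
  main M M_acyclic c hc

end Pool.Agent.P.MP_1bff7a_co
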