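import Pool.Agent.P.MP_1bff7a_co.Dir

/-! The entropy of a label telescopes along a tree of classes. -/

namespace Pool.Agent.P.MP_1bff7a_co

open Finset

variable {α β : Type*} [DecidableEq β]

lemma xlog_aux {x μ : ℝ} (hx : 0 ≤ x) (hμ : 0 < μ) : x - μ ≤ x * (Real.log x - Real.log μ) := by
  rcases hx.eq_or_lt with h | h
  · subst h; simp [hμ.le]
  · have h1 := Real.one_sub_inv_le_log_of_pos (div_pos h hμ)
    rw [Real.log_div h.ne' hμ.ne', inv_div] at h1
    have h2 := mul_le_mul_of_nonneg_left h1 h.le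
    have h3 : x * (1 - μ / x) = x - μ := by field_simp
    linarith

lemma xlog_ge {x ν : ℝ} (hx : 0 ≤ x) (hν : 0 < ν) (h : 4 * x < ν) :
    x - ν + ν / 4 ≤ x * (Real.log x - Real.log ν) := by
  have h1 := xlog_aux hx (half_pos hν)
  rw [Real.log_div hν.ne' two_ne_zero] at h1
  have h2 : Real.log 2 ≤ 1 := by
    have := Real.log_two_lt_d9; linarith
  have h3 := mul_le_mul_of_nonneg_left h2 hx
  nlinarith

lemma kl_ge {m : ℕ} (hm : 0 < m) (c : ℕ → ℝ) (hc : ∀ s, 0 ≤ c s) {N : ℝ} (hN : 0 < N)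
    (hs : ∑ s ∈ range m, c s = N) :
    0 ≤ ∑ s ∈ range m, c s * (Real.log m + Real.log (c s) - Real.log N) ∧
    ((∃ s < m, 4 * m * c s < N) →
      N ≤ 4 * m * ∑ s ∈ range m, c s * (Real.log m + Real.log (c s) - Real.log N)) := by
  have hm' : (0 : ℝ) < m := by exact_mod_cast hm
  have hν : 0 < N / m := div_pos hN hm'
  have h1 : ∀ s, c s * (Real.log m + Real.log (c s) - Real.log N)
      = c s * (Real.log (c s) - Real.log (N / m)) := by
    intro s; rw [Real.log_div hN.ne' hm'.ne']; ring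
  have h2 : ∑ s ∈ range m, (c s - N / m) = 0 := by
    rw [sum_sub_distrib, hs, sum_const, card_range, nsmul_eq_mul]; field_simp; ring
  simp only [h1]
  have h3 : ∑ s ∈ range m, c s * (Real.log (c s) - Real.log (N / m))
      = ∑ s ∈ range m, (c s * (Real.log (c s) - Real.log (N / m)) - (c s - N / m)) := by
    rw [sum_sub_distrib, h2, sub_zero]
  have h4 : ∀ s ∈ range m, 0 ≤ c s * (Real.log (c s) - Real.log (N / m)) - (c s - N / m) :=
    fun s _ => sub_nonneg.2 (xlog_aux (hc s) hν)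
  rw [h3]
  refine ⟨sum_nonneg h4, ?_⟩
  rintro ⟨s, hs1, hs2⟩
  have h5 := single_le_sum h4 (mem_range.2 hs1)
  have h6 := xlog_ge (hc s) hν (by rw [lt_div_iff₀ hm']; linarith)
  have h7 : N / m / 4 ≤ ∑ s ∈ range m,
      (c s * (Real.log (c s) - Real.log (N / m)) - (c s - N / m)) := by linarith
  have h8 := mul_le_mul_of_nonneg_left h7 (show (0 : ℝ) ≤ 4 * m by positivity)
  have h9 : 4 * m * (N / m / 4) = N := by field_simp
  linarith

/-- The class of `e` at level `j` together with its label. -/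
def kz (m : ℕ) (line rk : α → ℕ) (Z : α → β) (j : ℕ) (e : α) : (ℕ × ℕ) × β :=
  (key m line rk j e, Z e)

/-- The size of the labelled class of `e` at level `j`. -/
def cz (m : ℕ) (E : Finset α) (line rk : α → ℕ) (Z : α → β) (j : ℕ) (e : α) : ℕ :=
  #(fib E (kz m line rk Z j) (kz m line rk Z j e))

/-- Some child of the class of `e` holds a small share of the label of `e`. -/
def Thin (m : ℕ) (E : Finset α) (line rk : α → ℕ) (Z : α → β) (j : ℕ) (e : α) : Prop :=
  ∃ s < m, 4 * m * #((fib E (kz m line rk Z (j + 1)) (kz m line rk Z (j + 1) e)).filter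
    (dig m rk j · = s)) < cz m E line rk Z (j + 1) e

lemma fib_kz {m : ℕ} (hm : 0 < m) (E : Finset α) (line rk : α → ℕ) (Z : α → β) (j : ℕ) (x : α) :
    fib E (kz m line rk Z j) (kz m line rk Z j x) =
      (fib E (kz m line rk Z (j + 1)) (kz m line rk Z (j + 1) x)).filter
        (dig m rk j · = dig m rk j x) := by
  have hx := (key_eq_child_iff hm line rk j x (key m line rk (j + 1) x) (dig_lt hm rk j x)).2
    ⟨rfl, rfl⟩
  ext e
  rw [mem_filter, mem_fib, mem_fib]
  simp only [kz, Prod.mk.injEq]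
  rw [hx, key_eq_child_iff hm line rk j e _ (dig_lt hm rk j x)]
  tauto

open Classical in
lemma thin_step {m : ℕ} (hm : 0 < m) (E : Finset α) (line rk : α → ℕ) (Z : α → β) (j : ℕ) :
    (#(E.filter (Thin m E line rk Z j)) : ℝ) ≤ ∑ e ∈ E, 4 * m *
      (Real.log m + Real.log (cz m E line rk Z j e) - Real.log (cz m E line rk Z (j + 1) e)) := by
  refine card_le_of_fib E (kz m line rk Z (j + 1)) _ _ fun e he => ?_
  have hN : (0 : ℝ) < #(fib E (kz m line rk Z (j + 1)) (kz m line rk Z (j + 1) e)) :=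
    fib_card_pos _ he
  obtain ⟨F, hF⟩ : ∃ F, F = fib E (kz m line rk Z (j + 1)) (kz m line rk Z (j + 1) e) := ⟨_, rfl⟩
  have hmem : ∀ x ∈ F, kz m line rk Z (j + 1) x = kz m line rk Z (j + 1) e := fun x hx =>
    (mem_fib.1 (hF ▸ hx)).2
  rw [← hF] at hN ⊢
  obtain ⟨c, hc⟩ : ∃ c : ℕ → ℝ, ∀ s, c s = #(F.filter (dig m rk j · = s)) := ⟨_, fun _ => rfl⟩
  have hmaps : ∀ x ∈ F, dig m rk j x ∈ range m := fun x _ => mem_range.2 (dig_lt hm rk j x)
  have hs : ∑ s ∈ range m, c s = #F := by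
    simp only [hc]
    exact_mod_cast (card_eq_sum_card_fiberwise hmaps).symm
  obtain ⟨k1, k2⟩ := kl_ge hm c (fun s => by rw [hc]; positivity) hN hs
  have h1 : ∑ x ∈ F, (Real.log m + Real.log (cz m E line rk Z j x)
      - Real.log (cz m E line rk Z (j + 1) x))
      = ∑ s ∈ range m, c s * (Real.log m + Real.log (c s) - Real.log #F) := by
    rw [← sum_fiberwise_of_maps_to hmaps]
    refine sum_congr rfl fun s _ => ?_
    rw [hc, ← nsmul_eq_mul, ← sum_const]
    refine sum_congr rfl fun x hx => ?_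
    obtain ⟨hx1, hx2⟩ := mem_filter.1 hx
    rw [cz, cz, fib_kz hm, hmem x hx1, hx2, ← hF]
  rw [← mul_sum, h1]
  rcases (F.filter (Thin m E line rk Z j)).eq_empty_or_nonempty with h | ⟨x, hx⟩
  · rw [h, card_empty, Nat.cast_zero]; positivity
  · obtain ⟨hx1, s, hs1, hs2⟩ := mem_filter.1 hx
    rw [cz, hmem x hx1, ← hF] at hs2
    refine le_trans ?_ (k2 ⟨s, hs1, by rw [hc]; exact_mod_cast hs2⟩)
    exact_mod_cast card_filter_le _ _

/-- The weight of a code word. -/
noncomputable def wt {ι : Type*} [Fintype ι] (z : ι → ℕ) : ℝ :=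
  ∏ i, 1 / (((z i : ℝ) + 1) * (z i + 2))

lemma wt_pos {ι : Type*} [Fintype ι] (z : ι → ℕ) : 0 < wt z :=
  prod_pos fun _ _ => by positivity

lemma sum_w0 (M : ℕ) : ∑ a ∈ range M, 1 / (((a : ℝ) + 1) * (a + 2)) ≤ 1 := by
  have : ∑ a ∈ range M, 1 / (((a : ℝ) + 1) * (a + 2)) = 1 - 1 / ((M : ℝ) + 1) := by
    induction M with
    | zero => simp
    | succ M ih => rw [sum_range_succ, ih]; push_cast; field_simp; ring
  rw [this]
  have : 0 ≤ 1 / ((M : ℝ) + 1) := by positivity
  linarith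

lemma sum_wt_le {ι : Type*} [Fintype ι] [DecidableEq ι] (s : Finset (ι → ℕ)) :
    ∑ z ∈ s, wt z ≤ 1 := by
  obtain ⟨M, hM⟩ : ∃ M, ∀ z ∈ s, ∀ i, z i < M := by
    refine ⟨s.sup (fun z => univ.sup z) + 1, fun z hz i => Nat.lt_succ_of_le ?_⟩
    exact (le_sup (f := z) (mem_univ i)).trans (le_sup (f := fun z => univ.sup z) hz)
  have hsub : s ⊆ Fintype.piFinset fun _ => range M := fun z hz =>
    Fintype.mem_piFinset.2 fun i => mem_range.2 (hM z hz i)
  refine (sum_le_sum_of_subset_of_nonneg hsub fun z _ _ => (wt_pos z).le).trans ?_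
  unfold wt
  rw [← prod_univ_sum (fun _ : ι => range M) (fun _ a => 1 / (((a : ℝ) + 1) * (a + 2)))]
  exact prod_le_one (fun _ _ => sum_nonneg fun _ _ => by positivity) fun _ _ => sum_w0 M

lemma neg_log_wt {ι : Type*} [Fintype ι] (z : ι → ℕ) :
    -Real.log (wt z) ≤ ∑ i, 2 * Real.log ((z i : ℝ) + 2) := by
  unfold wt
  rw [Real.log_prod fun _ _ => by positivity, ← sum_neg_distrib]
  refine sum_le_sum fun i _ => ?_
  rw [one_div, Real.log_inv, neg_neg, Real.log_mul (by positivity) (by positivity)]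
  have := Real.log_le_log (show (0 : ℝ) < (z i : ℝ) + 1 by positivity)
    (show (z i : ℝ) + 1 ≤ z i + 2 by linarith)
  linarith

lemma gibbs {ι : Type*} [Fintype ι] [DecidableEq ι] (m d : ℕ) (E : Finset α) (line rk : α → ℕ)
    (Z : α → β) (enc : α → ι → ℕ)
    (henc : ∀ e ∈ E, ∀ e' ∈ E, line e = line e' → enc e = enc e' → Z e = Z e') {Q : ℝ}
    (hQ : 0 < Q) :
    ∑ e ∈ E, (Real.log Q - Real.log (cz m E line rk Z d e)) ≤
      ∑ e ∈ E, ∑ i, 2 * Real.log ((enc e i : ℝ) + 2) + Q * #(E.image (key m line rk d)) := by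
  have h1 : ∀ e ∈ E, Real.log Q - Real.log (cz m E line rk Z d e) ≤
      ∑ i, 2 * Real.log ((enc e i : ℝ) + 2) + Q * wt (enc e) / cz m E line rk enc d e := by
    intro e he
    have p1 : (0 : ℝ) < cz m E line rk enc d e := fib_card_pos _ he
    have p2 : (cz m E line rk enc d e : ℝ) ≤ cz m E line rk Z d e := by
      have : fib E (kz m line rk enc d) (kz m line rk enc d e)
          ⊆ fib E (kz m line rk Z d) (kz m line rk Z d e) := by
        intro x hx
        obtain ⟨a1, a2⟩ := mem_fib.1 hx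
        simp only [kz, Prod.mk.injEq] at a2
        refine mem_fib.2 ⟨a1, ?_⟩
        simp only [kz, Prod.mk.injEq]
        exact ⟨a2.1, henc x a1 e he (congrArg Prod.fst a2.1) a2.2⟩
      exact_mod_cast card_le_card this
    have p3 := Real.log_le_log p1 p2
    have p4 := wt_pos (enc e)
    have p5 := Real.log_le_sub_one_of_pos (div_pos (mul_pos hQ p4) p1)
    rw [Real.log_div (mul_pos hQ p4).ne' p1.ne', Real.log_mul hQ.ne' p4.ne'] at p5
    have p6 := neg_log_wt (enc e)
    linarith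
  refine (sum_le_sum h1).trans ?_
  rw [sum_add_distrib]
  refine add_le_add le_rfl ?_
  have h2 : ∑ e ∈ E, Q * wt (enc e) / cz m E line rk enc d e
      = ∑ h ∈ E.image (kz m line rk enc d), Q * wt h.2 := by
    rw [sum_eq_sum_fib E (kz m line rk enc d)]
    refine sum_congr rfl fun h hh => ?_
    obtain ⟨e, he, rfl⟩ := mem_image.1 hh
    have p1 : (0 : ℝ) < cz m E line rk enc d e := fib_card_pos _ he
    have : ∀ x ∈ fib E (kz m line rk enc d) (kz m line rk enc d e),
        Q * wt (enc x) / cz m E line rk enc d x = Q * wt (enc e) / cz m E line rk enc d e := by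
      intro x hx
      have a2 := (mem_fib.1 hx).2
      rw [cz, a2, show enc x = enc e from congrArg Prod.snd a2, cz]
    rw [sum_congr rfl this, sum_const, nsmul_eq_mul]
    change (cz m E line rk enc d e : ℝ) * _ = Q * wt (enc e)
    field_simp
  have hsub : E.image (kz m line rk enc d) ⊆ E.image (key m line rk d) ×ˢ E.image enc := by
    intro h hh
    obtain ⟨e, he, rfl⟩ := mem_image.1 hh
    exact mem_product.2 ⟨mem_image_of_mem _ he, mem_image_of_mem _ he⟩
  rw [h2]
  refine (sum_le_sum_of_subset_of_nonneg hsub fun h _ _ =>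
    (mul_pos hQ (wt_pos h.2)).le).trans ?_
  rw [sum_product, mul_comm Q, ← nsmul_eq_mul, ← sum_const]
  refine sum_le_sum fun h _ => ?_
  simp only
  rw [← mul_sum]
  exact mul_le_of_le_one_right hQ.le (sum_wt_le _)

open Classical in
/-- Thin classes are rare when the label is cheap to describe from the line. -/
theorem info {ι : Type*} [Fintype ι] [DecidableEq ι] {m : ℕ} (hm : 0 < m) (d : ℕ) (E : Finset α)
    (line rk : α → ℕ) (hinj : ∀ e ∈ E, ∀ e' ∈ E, line e = line e' → rk e = rk e' → e = e')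
    (Z : α → β) (enc : α → ι → ℕ)
    (henc : ∀ e ∈ E, ∀ e' ∈ E, line e = line e' → enc e = enc e' → Z e = Z e') :
    ∑ j ∈ range d, (#(E.filter (Thin m E line rk Z j)) : ℝ) ≤ 4 * m *
      (∑ e ∈ E, ∑ i, 2 * Real.log ((enc e i : ℝ) + 2)
        + (m : ℝ) ^ d * #(E.image (key m line rk d))) := by
  have hm' : (0 : ℝ) < m := by exact_mod_cast hm
  refine (sum_le_sum fun j _ => thin_step hm E line rk Z j).trans ?_
  refine le_trans (le_of_eq ?_) (mul_le_mul_of_nonneg_left
    (gibbs m d E line rk Z enc henc (pow_pos hm' d)) (by positivity))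
  simp only [← mul_sum]
  congr 1
  rw [sum_comm]
  refine sum_congr rfl fun e he => ?_
  have h0 : cz m E line rk Z 0 e = 1 := by
    rw [cz, card_eq_one]
    refine ⟨e, eq_singleton_iff_unique_mem.2 ⟨mem_fib.2 ⟨he, rfl⟩, fun x hx => ?_⟩⟩
    obtain ⟨a1, a2⟩ := mem_fib.1 hx
    simp only [kz, key, pow_zero, Nat.div_one, Prod.mk.injEq] at a2
    exact hinj x a1 e he a2.1.1 a2.1.2
  simp only [add_sub_assoc]
  rw [sum_add_distrib, sum_range_sub' (fun j => Real.log (cz m E line rk Z j e)), h0, sum_const,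
    card_range, nsmul_eq_mul, Real.log_pow]
  simp
  ring

end Pool.Agent.P.MP_1bff7a_co
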