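import Pool.Agent.P.MP_1bff7a_co.Sq1

/-! The quantile tree of one line: lengths, resolution and cut points. -/

namespace Pool.Agent.P.MP_1bff7a_co

open Finset

/-- The binary length of the `q`-th block of `M` consecutive ranks. -/
def lam (f : ℕ → ℕ) (M q : ℕ) : ℕ := Nat.log 2 (f ((q + 1) * M) - f (q * M))

/-- The total drop of binary length from a block to its `m` children. -/
def del (f : ℕ → ℕ) (m M q : ℕ) : ℕ := ∑ s ∈ range m, (lam f (m * M) q - lam f M (m * q + s))

/-- The resolution at which the children of a block are recorded. -/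
def res (f : ℕ → ℕ) (m M q : ℕ) : ℕ := lam f (m * M) q - del f m M q

/-- The start of the `s`-th child at that resolution. -/
def cut (f : ℕ → ℕ) (m M q s : ℕ) : ℕ := f ((m * q + s) * M) / 2 ^ res f m M q

variable {f : ℕ → ℕ}

lemma lam_child (hf : StrictMono f) {m s : ℕ} (hs : s < m) (M q : ℕ) :
    lam f M (m * q + s) ≤ lam f (m * M) q := by
  refine Nat.log_mono_right (tsub_le_tsub (hf.monotone ?_) (hf.monotone ?_))
  · have := Nat.mul_le_mul_right M (show m * q + s + 1 ≤ m * q + m by omega)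
    calc _ ≤ (m * q + m) * M := this
      _ = _ := by ring
  · have := Nat.mul_le_mul_right M (show m * q ≤ m * q + s by omega)
    calc _ = m * q * M := by ring
      _ ≤ _ := this

lemma res_le {m s : ℕ} (hs : s < m) (M q : ℕ) : res f m M q ≤ lam f M (m * q + s) := by
  have := single_le_sum (f := fun s => lam f (m * M) q - lam f M (m * q + s))
    (fun _ _ => Nat.zero_le _) (mem_range.2 hs)
  unfold res del
  omega

lemma cut_lt (hf : StrictMono f) {m M s s' : ℕ} (hM : 0 < M) (hs : s < m) (hss : s < s') (q : ℕ) :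
    cut f m M q s < cut f m M q s' := by
  have h1 : f ((m * q + s) * M) < f ((m * q + s + 1) * M) :=
    hf (Nat.mul_lt_mul_of_pos_right (Nat.lt_succ_self _) hM)
  have h2 : 2 ^ res f m M q ≤ f ((m * q + s + 1) * M) - f ((m * q + s) * M) :=
    (Nat.pow_le_pow_right (by norm_num) (res_le hs M q)).trans
      (Nat.pow_log_le_self 2 (by omega))
  have h3 : f ((m * q + s + 1) * M) ≤ f ((m * q + s') * M) :=
    hf.monotone (Nat.mul_le_mul_right M (by omega))
  have h4 : f ((m * q + s) * M) + 2 ^ res f m M q ≤ f ((m * q + s') * M) := by omega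
  have h5 := Nat.div_le_div_right (c := 2 ^ res f m M q) h4
  rw [Nat.add_div_right _ (by positivity)] at h5
  exact h5

lemma near {a B x y : ℕ} (h : x ≤ y + 2 ^ a * B) : x / 2 ^ a - y / 2 ^ a ≤ B := by
  have h5 := Nat.div_le_div_right (c := 2 ^ a) h
  rw [Nat.add_mul_div_left _ _ (by positivity)] at h5
  omega

lemma cut_near (hf : StrictMono f) {m M s t : ℕ} (hm : 0 < m) (hM : 0 < M) (hs : s < m) :
    cut f m M (t / (m * M)) s - f t / 2 ^ res f m M (t / (m * M))
      ≤ 2 ^ (del f m M (t / (m * M)) + 1) ∧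
    f t / 2 ^ res f m M (t / (m * M)) - cut f m M (t / (m * M)) s
      ≤ 2 ^ (del f m M (t / (m * M)) + 1) := by
  set q := t / (m * M) with hq
  have hmM : 0 < m * M := Nat.mul_pos hm hM
  have a1 : f (q * (m * M)) ≤ f t := hf.monotone (Nat.div_mul_le_self t _)
  have a2 : f t ≤ f ((q + 1) * (m * M)) := hf.monotone (by
    rw [mul_comm]; exact (Nat.lt_mul_div_succ t hmM).le)
  have a3 : f (q * (m * M)) ≤ f ((m * q + s) * M) := hf.monotone (by
    have := Nat.mul_le_mul_right M (show m * q ≤ m * q + s by omega)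
    calc _ = m * q * M := by ring
      _ ≤ _ := this)
  have a4 : f ((m * q + s) * M) ≤ f ((q + 1) * (m * M)) := hf.monotone (by
    have := Nat.mul_le_mul_right M (show m * q + s ≤ m * q + m by omega)
    calc _ ≤ (m * q + m) * M := this
      _ = _ := by ring)
  have a5 : f ((q + 1) * (m * M)) - f (q * (m * M)) < 2 ^ (lam f (m * M) q + 1) :=
    Nat.lt_pow_succ_log_self (by norm_num) _
  have a6 : 2 ^ (lam f (m * M) q + 1) ≤ 2 ^ res f m M q * 2 ^ (del f m M q + 1) := by
    rw [← pow_add]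
    refine Nat.pow_le_pow_right (by norm_num) ?_
    unfold res; omega
  exact ⟨near (by omega), near (by omega)⟩

lemma sum_div (g : ℕ → ℝ) {M : ℕ} (hM : 0 < M) (X : ℕ) :
    ∑ t ∈ range (M * X), g (t / M) = M * ∑ x ∈ range X, g x := by
  rw [sum_range_mul', mul_sum]
  refine sum_congr rfl fun q _ => ?_
  have : ∀ b ∈ range M, g ((M * q + b) / M) = g q := fun b hb => by
    rw [Nat.mul_add_div hM, Nat.div_eq_of_lt (mem_range.1 hb), add_zero]
  rw [sum_congr rfl this, sum_const, card_range, nsmul_eq_mul]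

lemma sum_del (hf : StrictMono f) {m M : ℕ} (hm : 0 < m) (hM : 0 < M) (D : ℕ) :
    ∑ t ∈ range (m * M * D), (del f m M (t / (m * M)) : ℝ) = m * ∑ t ∈ range (m * M * D),
      ((lam f (m * M) (t / (m * M)) : ℝ) - lam f M (t / M)) := by
  have h1 := sum_div (fun q => (del f m M q : ℝ)) (Nat.mul_pos hm hM) D
  have h2 := sum_div (fun x => (lam f (m * M) (x / m) : ℝ) - lam f M x) hM (m * D)
  have h3 : ∀ t, t / M / m = t / (m * M) := fun t => by rw [Nat.div_div_eq_div_mul, mul_comm]
  simp only [h3] at h2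
  rw [h1, show m * M * D = M * (m * D) by ring, h2, sum_range_mul']
  push_cast
  rw [mul_assoc]
  congr 2
  refine sum_congr rfl fun q _ => ?_
  rw [del, Nat.cast_sum]
  refine sum_congr rfl fun s hs => ?_
  rw [Nat.mul_add_div hm, Nat.div_eq_of_lt (mem_range.1 hs), add_zero,
    Nat.cast_sub (lam_child hf (mem_range.1 hs) M q)]

lemma sum_del_le (hf : StrictMono f) {m : ℕ} (hm : 0 < m) (d D n : ℕ) (hD : f (m ^ d * D) ≤ n) :
    ∑ u ∈ range d, ∑ t ∈ range (m ^ d * D), (del f m (m ^ u) (t / m ^ (u + 1)) : ℝ)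
      ≤ m * ((m ^ d * D : ℕ) * Nat.log 2 n) := by
  have h1 : ∀ u ∈ range d, ∑ t ∈ range (m ^ d * D), (del f m (m ^ u) (t / m ^ (u + 1)) : ℝ)
      = m * ∑ t ∈ range (m ^ d * D),
        ((lam f (m ^ (u + 1)) (t / m ^ (u + 1)) : ℝ) - lam f (m ^ u) (t / m ^ u)) := by
    intro u hu
    obtain ⟨w, rfl⟩ := Nat.exists_eq_add_of_lt (mem_range.1 hu)
    have := sum_del hf hm (pow_pos hm u) (m ^ w * D)
    rw [show m * m ^ u * (m ^ w * D) = m ^ (u + w + 1) * D by ring, ← pow_succ'] at this
    exact this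
  rw [sum_congr rfl h1, ← mul_sum, sum_comm]
  refine mul_le_mul_of_nonneg_left ?_ (by positivity)
  rw [← card_range (m ^ d * D), ← nsmul_eq_mul, ← sum_const, card_range]
  refine sum_le_sum fun t ht => ?_
  rw [sum_range_sub (fun u => (lam f (m ^ u) (t / m ^ u) : ℝ))]
  have h2 : lam f (m ^ d) (t / m ^ d) ≤ Nat.log 2 n := by
    refine Nat.log_mono_right ((Nat.sub_le _ _).trans (le_trans (hf.monotone ?_) hD))
    rw [mul_comm]
    exact Nat.mul_le_mul_left _ (Nat.div_lt_of_lt_mul (mem_range.1 ht))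
  have h3 : (lam f (m ^ d) (t / m ^ d) : ℝ) ≤ Nat.log 2 n := by exact_mod_cast h2
  have h4 : (0 : ℝ) ≤ lam f (m ^ 0) (t / m ^ 0) := by positivity
  linarith

/-- Two ranks with the same code whose digits differ by at least two are in order. -/
lemma sep {g : ℕ → ℕ} (hf : StrictMono f) (hg : StrictMono g) {m M t t' : ℕ} (hm : 0 < m)
    (hM : 0 < M) (hres : res f m M (t / (m * M)) = res g m M (t' / (m * M)))
    (hcut : ∀ s < m, cut f m M (t / (m * M)) s = cut g m M (t' / (m * M)) s)
    (h : t / M % m + 2 ≤ t' / M % m) : f t < g t' := by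
  have h3 : ∀ t, t / (m * M) = t / M / m := fun t => by rw [Nat.div_div_eq_div_mul, mul_comm]
  have b1 : t' / M % m < m := Nat.mod_lt _ hm
  have a1 : f t < f ((m * (t / (m * M)) + (t / M % m + 1)) * M) := hf (by
    rw [h3, ← add_assoc, Nat.div_add_mod, mul_comm]
    exact Nat.lt_mul_div_succ t hM)
  have a2 : g ((m * (t' / (m * M)) + t' / M % m) * M) ≤ g t' := hg.monotone (by
    rw [h3, Nat.div_add_mod]
    exact Nat.div_mul_le_self _ _)
  have a3 := cut_lt hf (m := m) (s := t / M % m + 1) (s' := t' / M % m) hM (by omega) (by omega)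
    (t / (m * M))
  rw [hcut _ b1, cut, cut, hres] at a3
  have a4 := Nat.lt_of_div_lt_div a3
  omega

end Pool.Agent.P.MP_1bff7a_co
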