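import Pool.Agent.P.MP_1bff7a_co.Sq2

/-! Ranks along the lines of a set of cells, and the codes of the quantile classes. -/

namespace Pool.Agent.P.MP_1bff7a_co

open Finset

variable {α : Type*}

/-- Rank data of a set `E` of cells in one direction. -/
structure Rank (E : Finset α) (line pos : α → ℕ) (n : ℕ) where
  rk : α → ℕ
  f : ℕ → ℕ → ℕ
  deg : ℕ → ℕ
  mono : ∀ r, StrictMono (f r)
  val : ∀ e ∈ E, f (line e) (rk e) = pos e
  top : ∀ r, f r (deg r) ≤ n
  lt : ∀ e ∈ E, rk e < deg (line e)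
  tot : ∑ r ∈ range n, deg r ≤ #E
  line_lt : ∀ e ∈ E, line e < n
  inj : ∀ e ∈ E, ∀ e' ∈ E, line e = line e' → rk e = rk e' → e = e'

theorem exists_rank (E : Finset α) (line pos : α → ℕ) (n : ℕ) (hl : ∀ e ∈ E, line e < n)
    (hp : ∀ e ∈ E, pos e < n)
    (hinj : ∀ e ∈ E, ∀ e' ∈ E, line e = line e' → pos e = pos e' → e = e') :
    Nonempty (Rank E line pos n) := by
  classical
  let p : ℕ → ℕ → Prop := fun r c => (∃ e ∈ E, line e = r ∧ pos e = c) ∨ n ≤ c
  have hinf : ∀ r, {c | p r c}.Infinite := fun r =>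
    (Set.Ici_infinite n).mono fun c hc => Or.inr hc
  have hval : ∀ e ∈ E, Nat.nth (p (line e)) (Nat.count (p (line e)) (pos e)) = pos e :=
    fun e he => Nat.nth_count (Or.inl ⟨e, he, rfl, rfl⟩)
  refine ⟨⟨fun e => Nat.count (p (line e)) (pos e), fun r => Nat.nth (p r),
    fun r => Nat.count (p r) n, fun r => Nat.nth_strictMono (hinf r), hval,
    fun r => (Nat.nth_count (p := p r) (Or.inr le_rfl)).le,
    fun e he => Nat.count_strict_mono (Or.inl ⟨e, he, rfl, rfl⟩) (hp e he), ?_, hl,
    fun e he e' he' h1 h2 => hinj e he e' he' h1 ?_⟩⟩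
  · rw [card_eq_sum_card_fiberwise (f := line) (t := range n) fun e he => mem_range.2 (hl e he)]
    refine sum_le_sum fun r _ => ?_
    rw [Nat.count_eq_card_filter_range]
    refine le_trans (card_le_card ?_) (card_image_le (f := pos))
    intro c hc
    obtain ⟨h1, h2⟩ := mem_filter.1 hc
    rcases h2 with ⟨e, he, h3, h4⟩ | h2
    · exact mem_image.2 ⟨e, mem_filter.2 ⟨he, h3⟩, h4⟩
    · exact absurd (mem_range.1 h1) (not_lt.2 h2)
  · rw [← hval e he, ← hval e' he', h2, h1]

namespace Rank

variable {E : Finset α} {line pos : α → ℕ} {n : ℕ} (R : Rank E line pos n)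

/-- The cell lies in a full block of `m ^ d` ranks. -/
def alive (m d : ℕ) (e : α) : Prop := R.rk e / m ^ d < R.deg (line e) / m ^ d

instance (m d : ℕ) : DecidablePred (R.alive m d) := fun _ => Nat.decLt _ _

/-- The code of the class of `e` at level `u + 1`. -/
def code (m d u : ℕ) (e : α) : Option (ℕ × (Fin m → ℕ)) :=
  if R.alive m d e then some (res (R.f (line e)) m (m ^ u) (R.rk e / m ^ (u + 1)),
    fun s => cut (R.f (line e)) m (m ^ u) (R.rk e / m ^ (u + 1)) s) else none

/-- The description of the code from the position of the cell. -/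
def enc (m d u : ℕ) (e : α) : Option (Fin m ⊕ Fin m) → ℕ := fun i =>
  match R.code m d u e, i with
  | none, _ => 0
  | some z, none => z.1 + 1
  | some z, some (.inl s) => z.2 s - pos e / 2 ^ z.1
  | some z, some (.inr s) => pos e / 2 ^ z.1 - z.2 s

lemma code_of_enc (m d u : ℕ) (e e' : α) (hp : pos e = pos e')
    (h : R.enc m d u e = R.enc m d u e') : R.code m d u e = R.code m d u e' := by
  have h0 := congrFun h none
  have h1 := fun s => congrFun h (some (.inl s))
  have h2 := fun s => congrFun h (some (.inr s))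
  unfold enc at h0 h1 h2
  rcases hc : R.code m d u e with _ | z <;> rcases hc' : R.code m d u e' with _ | z' <;>
    simp only [hc, hc'] at h0 h1 h2
  · rfl
  · omega
  · omega
  · have h3 : z.1 = z'.1 := by omega
    refine congrArg some (Prod.ext h3 (funext fun s => ?_))
    have a1 := h1 s
    have a2 := h2 s
    rw [hp, h3] at a1 a2
    omega

lemma alive_congr {m d u : ℕ} (hu : u < d) {e e' : α}
    (h : key m line R.rk (u + 1) e' = key m line R.rk (u + 1) e) :
    R.alive m d e' ↔ R.alive m d e := by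
  obtain ⟨w, rfl⟩ := Nat.exists_eq_add_of_lt hu
  simp only [key, Prod.mk.injEq] at h
  unfold alive
  rw [show u + w + 1 = u + 1 + w by ring, pow_add, ← Nat.div_div_eq_div_mul (R.rk e'),
    ← Nat.div_div_eq_div_mul (R.rk e), h.1, h.2]

lemma code_congr {m d u : ℕ} (hu : u < d) {e e' : α}
    (h : key m line R.rk (u + 1) e' = key m line R.rk (u + 1) e) :
    R.code m d u e' = R.code m d u e := by
  have h1 := R.alive_congr hu h
  simp only [key, Prod.mk.injEq] at h
  unfold code
  simp only [h1, h.1, h.2]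

lemma code_ne {m d u : ℕ} {e : α} : R.code m d u e ≠ none ↔ R.alive m d e := by
  unfold code; split_ifs with h <;> simp [h]

lemma code_sep {m d u : ℕ} (hm : 0 < m) {e e' : α} (he : e ∈ E) (he' : e' ∈ E)
    (ha : R.alive m d e) (h : R.code m d u e = R.code m d u e')
    (hd : dig m R.rk u e + 2 ≤ dig m R.rk u e') : pos e < pos e' := by
  have ha' : R.alive m d e' := R.code_ne.1 (h ▸ R.code_ne.2 ha)
  unfold code at h
  rw [if_pos ha, if_pos ha', Option.some.injEq, Prod.mk.injEq, pow_succ'] at h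
  rw [← R.val e he, ← R.val e' he']
  exact sep (R.mono _) (R.mono _) hm (pow_pos hm u) h.1 (fun s hs => congrFun h.2 ⟨s, hs⟩) hd

lemma dead_le {m d : ℕ} (hm : 0 < m) : #(E.filter fun e => ¬ R.alive m d e) ≤ n * m ^ d := by
  have hQ : 0 < m ^ d := pow_pos hm d
  refine le_trans ?_ (le_of_eq (show #(range n ×ˢ range (m ^ d)) = n * m ^ d by simp))
  refine card_le_card_of_injOn (fun e => (line e, R.rk e % m ^ d)) (fun e he => ?_)
    fun e he e' he' h => ?_
  · exact mem_coe.2 (mem_product.2 ⟨mem_range.2 (R.line_lt e (mem_filter.1 he).1),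
      mem_range.2 (Nat.mod_lt _ hQ)⟩)
  · obtain ⟨a1, a2⟩ := mem_filter.1 (mem_coe.1 he)
    obtain ⟨b1, b2⟩ := mem_filter.1 (mem_coe.1 he')
    simp only [Prod.mk.injEq] at h
    refine R.inj e a1 e' b1 h.1 ?_
    have a3 := Nat.div_le_div_right (c := m ^ d) (R.lt e a1).le
    have b3 := Nat.div_le_div_right (c := m ^ d) (R.lt e' b1).le
    unfold alive at a2 b2
    rw [h.1] at a2 a3
    rw [← Nat.div_add_mod (R.rk e) (m ^ d), ← Nat.div_add_mod (R.rk e') (m ^ d), h.2]
    congr 2
    omega

lemma classes_le {m d : ℕ} : m ^ d * #(E.image (key m line R.rk d)) ≤ #E + n * m ^ d := by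
  have hsub : E.image (key m line R.rk d) ⊆
      (range n).biUnion fun r => {r} ×ˢ range (R.deg r / m ^ d + 1) := by
    intro h hh
    obtain ⟨e, he, rfl⟩ := mem_image.1 hh
    refine mem_biUnion.2 ⟨line e, mem_range.2 (R.line_lt e he), mem_product.2
      ⟨mem_singleton.2 rfl, mem_range.2 (Nat.lt_succ_of_le ?_)⟩⟩
    exact Nat.div_le_div_right (R.lt e he).le
  refine (Nat.mul_le_mul_left _ ((card_le_card hsub).trans card_biUnion_le)).trans ?_
  rw [mul_sum]
  refine (sum_le_sum (g := fun r => R.deg r + m ^ d) fun r _ => ?_).trans ?_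
  · rw [card_product, card_singleton, one_mul, card_range, mul_add, mul_one]
    exact Nat.add_le_add_right (Nat.mul_div_le _ _) _
  · rw [sum_add_distrib, sum_const, card_range, smul_eq_mul]
    exact Nat.add_le_add_right R.tot _

/-- The drop of the class of `e`, and `0` for a cell outside the full blocks. -/
def drop (m d u : ℕ) (e : α) : ℕ :=
  if R.alive m d e then del (R.f (line e)) m (m ^ u) (R.rk e / m ^ (u + 1)) else 0

lemma sum_drop {m : ℕ} (hm : 0 < m) (d : ℕ) :
    ∑ u ∈ range d, ∑ e ∈ E, (R.drop m d u e : ℝ) ≤ m * (#E * Nat.log 2 n) := by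
  classical
  have hQ : 0 < m ^ d := pow_pos hm d
  have h1 : ∀ u, ∑ e ∈ E, (R.drop m d u e : ℝ) ≤ ∑ r ∈ range n,
      ∑ t ∈ range (m ^ d * (R.deg r / m ^ d)), (del (R.f r) m (m ^ u) (t / m ^ (u + 1)) : ℝ) := by
    intro u
    rw [sum_sigma']
    simp only [drop, Nat.cast_ite, Nat.cast_zero]
    rw [← sum_filter, ← sum_image (s := E.filter (R.alive m d))
      (g := fun e => (⟨line e, R.rk e⟩ : Σ _ : ℕ, ℕ))
      (f := fun x => (del (R.f x.1) m (m ^ u) (x.2 / m ^ (u + 1)) : ℝ))]
    · refine sum_le_sum_of_subset_of_nonneg (fun x hx => ?_) fun _ _ _ => by positivity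
      obtain ⟨e, he, rfl⟩ := mem_image.1 hx
      obtain ⟨a1, a2⟩ := mem_filter.1 he
      refine mem_sigma.2 ⟨mem_range.2 (R.line_lt e a1), mem_range.2 ?_⟩
      rw [mul_comm]
      exact (Nat.div_lt_iff_lt_mul hQ).1 a2
    · intro e he e' he' h
      simp only [Sigma.mk.injEq, heq_eq_eq] at h
      exact R.inj e (mem_filter.1 he).1 e' (mem_filter.1 he').1 h.1 h.2
  refine (sum_le_sum fun u _ => h1 u).trans ?_
  rw [sum_comm]
  refine (sum_le_sum fun r _ => sum_del_le (R.mono r) hm d _ n
    (((R.mono r).monotone (Nat.mul_div_le _ _)).trans (R.top r))).trans ?_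
  rw [← mul_sum, ← sum_mul]
  gcongr
  exact_mod_cast (sum_le_sum fun r _ => Nat.mul_div_le (R.deg r) (m ^ d)).trans R.tot

lemma enc_none {m d u : ℕ} (hm : 0 < m) (hu : u < d) (e : α) :
    R.enc m d u e none ≤ Nat.log 2 n + 1 := by
  unfold enc code
  split_ifs with h
  · refine Nat.add_le_add_right ((Nat.sub_le _ _).trans (Nat.log_mono_right
      ((Nat.sub_le _ _).trans (le_trans ((R.mono _).monotone ?_) (R.top _))))) 1
    obtain ⟨w, rfl⟩ := Nat.exists_eq_add_of_lt hu
    unfold alive at h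
    have h1 := (Nat.div_lt_iff_lt_mul (pow_pos hm _)).1 h
    have h2 : R.rk e / m ^ (u + 1) < R.deg (line e) / m ^ (u + w + 1) * m ^ w := by
      refine (Nat.div_lt_iff_lt_mul (pow_pos hm _)).2 (h1.trans_eq ?_)
      ring
    refine (Nat.mul_le_mul_right _ h2).trans (le_trans (le_of_eq ?_)
      (Nat.div_mul_le_self _ (m ^ (u + w + 1))))
    ring
  · exact Nat.zero_le _

lemma enc_some {m d u : ℕ} (hm : 0 < m) {e : α} (he : e ∈ E) (i : Fin m ⊕ Fin m) :
    R.enc m d u e (some i) ≤ 2 ^ (R.drop m d u e + 1) := by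
  unfold enc code drop
  split_ifs with h
  · rw [← R.val e he, pow_succ' m u]
    rcases i with s | s
    · exact (cut_near (R.mono _) hm (pow_pos hm u) s.2).1
    · exact (cut_near (R.mono _) hm (pow_pos hm u) s.2).2
  · exact Nat.zero_le _

lemma cost_le {m d u : ℕ} (hm : 0 < m) (hu : u < d) {e : α} (he : e ∈ E) :
    ∑ i, 2 * Real.log ((R.enc m d u e i : ℝ) + 2) ≤
      2 * Real.log (Nat.log 2 n + 3) + 4 * m * (R.drop m d u e + 2) := by
  rw [Fintype.sum_option]
  refine add_le_add ?_ ?_
  · have : (R.enc m d u e none : ℝ) ≤ Nat.log 2 n + 1 := by exact_mod_cast R.enc_none hm hu e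
    have := Real.log_le_log (by positivity) (show (R.enc m d u e none : ℝ) + 2
      ≤ Nat.log 2 n + 3 by linarith)
    linarith
  · refine (sum_le_sum (g := fun _ => 2 * ((R.drop m d u e : ℝ) + 2)) fun i _ => ?_).trans
      (le_of_eq ?_)
    · have h1 : R.enc m d u e (some i) + 2 ≤ 2 ^ (R.drop m d u e + 2) := by
        have := R.enc_some (d := d) (u := u) hm he i
        have h2 : 1 ≤ 2 ^ R.drop m d u e := Nat.one_le_two_pow
        rw [pow_succ] at this
        rw [pow_add]
        omega
      have h2 : (R.enc m d u e (some i) : ℝ) + 2 ≤ 2 ^ (R.drop m d u e + 2) := by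
        exact_mod_cast h1
      have h3 := Real.log_le_log (by positivity) h2
      rw [Real.log_pow] at h3
      have h4 : Real.log 2 ≤ 1 := by
        have := Real.log_two_lt_d9; linarith
      have h5 := mul_le_mul_of_nonneg_left h4
        (show (0 : ℝ) ≤ ((R.drop m d u e + 2 : ℕ) : ℝ) by positivity)
      push_cast at h3 h5
      linarith
    · simp only [sum_const, card_univ, Fintype.card_sum, Fintype.card_fin, nsmul_eq_mul]
      push_cast
      ring

lemma sum_cost {m : ℕ} (hm : 0 < m) (d : ℕ) :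
    ∑ u ∈ range d, ∑ e ∈ E, ∑ i, 2 * Real.log ((R.enc m d u e i : ℝ) + 2) ≤
      (d * (2 * Real.log (Nat.log 2 n + 3) + 8 * m) + 4 * m ^ 2 * Nat.log 2 n) * #E := by
  refine (sum_le_sum fun u hu => sum_le_sum fun e he =>
    R.cost_le hm (mem_range.1 hu) he).trans ?_
  have h1 := mul_le_mul_of_nonneg_left (R.sum_drop hm d) (show (0 : ℝ) ≤ 4 * m by positivity)
  simp only [mul_add, sum_add_distrib, sum_const, card_range, nsmul_eq_mul, ← mul_sum]
  linarith

end Rank

open Classical in
/-- The thin cells of one direction, against the codes of the other direction. -/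
theorem thin_total {E : Finset α} {line pos : α → ℕ} {n : ℕ} (R : Rank E line pos n)
    (C : Rank E pos line n) {m : ℕ} (hm : 0 < m) (d : ℕ) (hE : n * m ^ d ≤ #E) :
    ∑ v ∈ range d, ∑ u ∈ range d, (#(E.filter (Thin m E line R.rk (C.code m d v) u)) : ℝ) ≤
      4 * m * ((d * (2 * Real.log (Nat.log 2 n + 3) + 8 * m + 2) + 4 * m ^ 2 * Nat.log 2 n)
        * #E) := by
  refine (sum_le_sum fun v _ => info hm d E line R.rk R.inj (C.code m d v) (C.enc m d v)
    fun e _ e' _ h1 h2 => C.code_of_enc m d v e e' h1 h2).trans ?_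
  rw [← mul_sum, sum_add_distrib, sum_const, card_range, nsmul_eq_mul]
  refine mul_le_mul_of_nonneg_left ?_ (by positivity)
  have h1 := C.sum_cost hm d
  have h2 : ((m : ℝ) ^ d * #(E.image (key m line R.rk d))) ≤ 2 * #E := by
    have := R.classes_le (m := m) (d := d)
    exact_mod_cast (show m ^ d * #(E.image (key m line R.rk d)) ≤ 2 * #E by omega)
  have h3 := mul_le_mul_of_nonneg_left h2 (show (0 : ℝ) ≤ d by positivity)
  linarith

end Pool.Agent.P.MP_1bff7a_co
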