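import Pool.Agent.P.MP_1bff7a_co.Sq3
import Pool.Agent.P.MP_1bff7a_co.Core

/-! The bound `n * exp (C * sqrt (log n))` for every cycle-free pattern. -/

namespace Pool.Agent.P.MP_1bff7a_co

open Finset

lemma thick {α β γ : Type*} [DecidableEq β] {m u : ℕ} (hm : 0 < m) {E G : Finset α}
    (line rk : α → ℕ) (S : α → γ) (Z : α → β) (S0 : γ) (T0 : β)
    (hS : ∀ e e', key m line rk (u + 1) e' = key m line rk (u + 1) e → S e' = S e)
    (hG : ∀ e, e ∈ G ↔ e ∈ E ∧ S e = S0 ∧ Z e = T0) :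
    ∀ e ∈ G, ¬ Thin m E line rk Z u e → ∀ b ∈ range m,
      (1 : ℝ) / (4 * m) * #(fib G (key m line rk (u + 1)) (key m line rk (u + 1) e))
        ≤ #((fib G (key m line rk (u + 1)) (key m line rk (u + 1) e)).filter
          (dig m rk u · = b)) := by
  intro e he hthin b hb
  obtain ⟨_, h2, h3⟩ := (hG e).1 he
  have h4 : fib G (key m line rk (u + 1)) (key m line rk (u + 1) e)
      = fib E (kz m line rk Z (u + 1)) (kz m line rk Z (u + 1) e) := by
    ext z
    rw [mem_fib, mem_fib, hG]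
    simp only [kz, Prod.mk.injEq]
    constructor
    · rintro ⟨⟨a1, _, a3⟩, a4⟩; exact ⟨a1, a4, a3.trans h3.symm⟩
    · rintro ⟨a1, a2, a3⟩; exact ⟨⟨a1, (hS e z a2).trans h2, a3.trans h3⟩, a2⟩
  rw [h4, one_div_mul_eq_div, div_le_iff₀ (by positivity), mul_comm]
  have h5 := not_lt.1 fun h => hthin ⟨b, mem_range.1 hb, h⟩
  rw [cz] at h5
  exact_mod_cast h5

open Classical in
lemma local_sq {k l n : ℕ} (P : Matrix (Fin k) (Fin l) Bool) (hP : (rowColGraph P).IsAcyclic)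
    (A : Matrix (Fin n) (Fin n) Bool) (hA : ¬ Contains A P) {m d u v : ℕ} (hm : 0 < m)
    (hk : 2 * k ≤ m) (hl : 2 * l ≤ m) (hu : u < d) (hv : v < d)
    (R : Rank (ones A) rw' cl' n) (C : Rank (ones A) cl' rw' n) :
    (#((ones A).filter fun e => R.alive m d e ∧ C.alive m d e) : ℝ) ≤ (1 + 8 * m) ^ (k + l) *
      (#((ones A).filter (Thin m (ones A) rw' R.rk (C.code m d v) u)) +
        #((ones A).filter (Thin m (ones A) cl' C.rk (R.code m d u) v))) := by
  obtain ⟨q, hq⟩ : ∃ q : Fin n × Fin n → Prop, ∀ e, q e ↔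
      Thin m (ones A) rw' R.rk (C.code m d v) u e ∨ Thin m (ones A) cl' C.rk (R.code m d u) v e :=
    ⟨_, fun _ => Iff.rfl⟩
  obtain ⟨F, hF⟩ : ∃ F, F = (ones A).filter fun e => R.alive m d e ∧ C.alive m d e := ⟨_, rfl⟩
  rw [← hF]
  have h1 : ∑ _e ∈ F, (1 : ℝ) ≤ ∑ e ∈ F, (1 + 8 * m) ^ (k + l) * if q e then (1 : ℝ) else 0 := by
    refine sum_le_of_fib F (fun e => (R.code m d u e, C.code m d v e)) _ _ fun e0 he0 => ?_
    obtain ⟨G, hG⟩ : ∃ G, G = fib F (fun e => (R.code m d u e, C.code m d v e))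
      (R.code m d u e0, C.code m d v e0) := ⟨_, rfl⟩
    rw [← hG]
    rw [hF, mem_filter] at he0
    have hmem : ∀ e, e ∈ G ↔
        e ∈ ones A ∧ R.code m d u e = R.code m d u e0 ∧ C.code m d v e = C.code m d v e0 := by
      intro e
      rw [hG, mem_fib, hF, mem_filter, Prod.mk.injEq]
      exact ⟨fun h => ⟨h.1.1, h.2⟩, fun h => ⟨⟨h.1, R.code_ne.1 (h.2.1 ▸ R.code_ne.2 he0.2.1),
        C.code_ne.1 (h.2.2 ▸ C.code_ne.2 he0.2.2)⟩, h.2⟩⟩
    have t1 := thick hm rw' R.rk (R.code m d u) (C.code m d v) _ _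
      (fun _ _ h => R.code_congr hu h) hmem
    have t2 := thick hm cl' C.rk (C.code m d v) (R.code m d u) _ _
      (fun _ _ h => C.code_congr hv h) (fun e => (hmem e).trans (by tauto))
    have h3 := prune G (key m rw' R.rk (u + 1)) (key m cl' C.rk (v + 1)) (dig m R.rk u)
      (dig m C.rk v) (range m) (range m) (G.filter q) (ρ := 1 / (4 * m)) (by positivity)
      (fun e he hD => t1 e he fun h => hD (mem_filter.2 ⟨he, (hq e).2 (Or.inl h)⟩))
      (fun e he hD => t2 e he fun h => hD (mem_filter.2 ⟨he, (hq e).2 (Or.inr h)⟩)) (k + l)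
    have h4 : (G.filter fun e => ¬ Good G (key m rw' R.rk (u + 1)) (key m cl' C.rk (v + 1))
        (dig m R.rk u) (dig m C.rk v) (range m) (range m) (k + l) e) = G := by
      refine filter_true_of_mem fun e1 _ hgood => hA ?_
      obtain ⟨φ, g1, g2, g3, g4⟩ := embed (fun a b => P a b = true) (rowColGraph P) hP
        (fun a b hab => by
          rw [rowColGraph, SimpleGraph.fromRel_adj]
          exact ⟨Sum.inl_ne_inr, Or.inl ⟨a, b, rfl, rfl, hab⟩⟩)
        G (key m rw' R.rk (u + 1)) (key m cl' C.rk (v + 1)) (dig m R.rk u) (dig m C.rk v)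
        (range m) (range m) (fun _ => ())
        (fun e e' h => ⟨Fin.ext (congrArg Prod.fst h), rfl⟩)
        (fun e e' h => ⟨Fin.ext (congrArg Prod.fst h), rfl⟩)
        (fun i => 2 * i) (fun j => 2 * j) (fun i => mem_range.2 (by omega))
        (fun j => mem_range.2 (by omega)) e1 (k + l) univ (by simp) 0 (by rwa [zero_add])
      have hm1 := fun w => (hmem _).1 (g1 w (mem_univ _)).1.mem
      refine ⟨fun a => (φ (Sum.inl a)).1, fun b => (φ (Sum.inr b)).2, fun a a' h => ?_,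
        fun b b' h => ?_, fun a b hab => ?_⟩
      · refine C.code_sep (d := d) (u := v) hm (hm1 _).1 (hm1 _).1
          (C.code_ne.1 ((hm1 _).2.2 ▸ C.code_ne.2 he0.2.2))
          ((hm1 _).2.2.trans (hm1 _).2.2.symm) ?_
        rw [g2 a (mem_univ _), g2 a' (mem_univ _)]
        have := Fin.lt_def.1 h
        omega
      · refine R.code_sep (d := d) (u := u) hm (hm1 _).1 (hm1 _).1
          (R.code_ne.1 ((hm1 _).2.1 ▸ R.code_ne.2 he0.2.1))
          ((hm1 _).2.1.trans (hm1 _).2.1.symm) ?_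
        rw [g3 b (mem_univ _), g3 b' (mem_univ _)]
        have := Fin.lt_def.1 h
        omega
      · exact (mem_filter.1 ((hmem _).1 (g4 a b (mem_univ _) (mem_univ _) hab)).1).2
    rw [h4, show (2 : ℝ) / (1 / (4 * m)) = 8 * m by field_simp; ring] at h3
    rw [← mul_sum, sum_boole, sum_const, nsmul_eq_mul, mul_one, mul_comm]
    exact h3
  rw [← mul_sum, sum_boole, sum_const, nsmul_eq_mul, mul_one] at h1
  refine h1.trans (mul_le_mul_of_nonneg_left ?_ (by positivity))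
  have hsub : F.filter q ⊆ (ones A).filter (Thin m (ones A) rw' R.rk (C.code m d v) u) ∪
      (ones A).filter (Thin m (ones A) cl' C.rk (R.code m d u) v) := by
    intro e he
    obtain ⟨a1, a2⟩ := mem_filter.1 he
    rw [hF] at a1
    rcases (hq e).1 a2 with h | h
    · exact mem_union_left _ (mem_filter.2 ⟨(mem_filter.1 a1).1, h⟩)
    · exact mem_union_right _ (mem_filter.2 ⟨(mem_filter.1 a1).1, h⟩)
  exact_mod_cast (card_le_card hsub).trans (card_union_le _ _)

theorem core_sq {k l : ℕ} (P : Matrix (Fin k) (Fin l) Bool) (hP : (rowColGraph P).IsAcyclic)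
    {m : ℕ} (hm : 0 < m) (hk : 2 * k ≤ m) (hl : 2 * l ≤ m) :
    ∃ c : ℕ, ∀ n, 0 < n → ∀ A : Matrix (Fin n) (Fin n) Bool, ¬ Contains A P →
      weight A ≤ 4 * (n * m ^ (c * (Nat.sqrt (Nat.log 2 n) + 1))) := by
  classical
  have hm' : (0 : ℝ) < m := by exact_mod_cast hm
  obtain ⟨a, ha⟩ : ∃ a : ℝ, a = (1 + 8 * m) ^ (k + l) := ⟨_, rfl⟩
  have ha0 : 0 < a := by rw [ha]; positivity
  obtain ⟨c, hc⟩ := exists_nat_gt (16 * a * m * (8 * m + 6 + 4 * m ^ 2))
  have hc0 : (0 : ℝ) < c := lt_trans (by positivity) hc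
  have hc1 : (1 : ℝ) ≤ c := by
    have : 0 < c := by exact_mod_cast hc0
    exact_mod_cast this
  refine ⟨c, fun n hn A hA => ?_⟩
  by_contra hcon
  have hw : weight A = #(ones A) := rfl
  rw [hw, not_le] at hcon
  obtain ⟨R⟩ := exists_rank (ones A) rw' cl' n (fun e _ => e.1.2) (fun e _ => e.2.2)
    fun e _ e' _ h1 h2 => Prod.ext (Fin.ext h1) (Fin.ext h2)
  obtain ⟨C⟩ := exists_rank (ones A) cl' rw' n (fun e _ => e.2.2) (fun e _ => e.1.2)
    fun e _ e' _ h1 h2 => Prod.ext (Fin.ext h2) (Fin.ext h1)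
  obtain ⟨σ, hσ⟩ : ∃ σ, σ = Nat.sqrt (Nat.log 2 n) + 1 := ⟨_, rfl⟩
  have hσ1 : (1 : ℝ) ≤ σ := by exact_mod_cast (show 1 ≤ σ by omega)
  have hσ2 : Nat.log 2 n < σ * σ := hσ ▸ Nat.lt_succ_sqrt _
  have hσ3 : (Nat.log 2 n : ℝ) + 1 ≤ σ * σ := by exact_mod_cast hσ2
  rw [← hσ] at hcon
  obtain ⟨d, hd⟩ : ∃ d, d = c * σ := ⟨_, rfl⟩
  rw [← hd] at hcon
  have hd' : (d : ℝ) = c * σ := by rw [hd]; push_cast; rfl
  have hE : (0 : ℝ) < #(ones A) := by exact_mod_cast (Nat.zero_le _).trans_lt hcon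
  have t1 := thin_total R C hm d (by omega)
  have t2 := thin_total C R hm d (by omega)
  have hF : (#(ones A) : ℝ) ≤ 2 * #((ones A).filter fun e => R.alive m d e ∧ C.alive m d e) := by
    have hsub : ones A ⊆ ((ones A).filter fun e => R.alive m d e ∧ C.alive m d e) ∪
        (((ones A).filter fun e => ¬ R.alive m d e) ∪ (ones A).filter fun e => ¬ C.alive m d e) := by
      intro e he
      simp only [mem_union, mem_filter, he, true_and]
      tauto
    have h1 := (card_le_card hsub).trans ((card_union_le _ _).trans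
      (Nat.add_le_add_left (card_union_le _ _) _))
    have h2 := R.dead_le (d := d) hm
    have h3 := C.dead_le (d := d) hm
    exact_mod_cast (show #(ones A) ≤ 2 * #((ones A).filter fun e =>
      R.alive m d e ∧ C.alive m d e) by omega)
  have h4 := sum_le_sum (s := range d) fun v hv => sum_le_sum (s := range d) fun u hu =>
    local_sq P hP A hA hm hk hl (mem_range.1 hu) (mem_range.1 hv) R C
  simp only [← mul_sum, sum_add_distrib, sum_const, card_range, nsmul_eq_mul] at h4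
  rw [← ha, sum_comm (f := fun v u =>
    (#((ones A).filter (Thin m (ones A) cl' C.rk (R.code m d u) v)) : ℝ))] at h4
  have h5 : Real.log (Nat.log 2 n + 3) ≤ 2 * σ := by
    have b1 : (Nat.log 2 n : ℝ) + 3 ≤ (σ + 1) ^ 2 := by nlinarith
    have b2 := Real.log_le_log (by positivity) b1
    rw [Real.log_pow] at b2
    have b3 := Real.log_le_sub_one_of_pos (show (0 : ℝ) < σ + 1 by linarith)
    push_cast at b2
    linarith
  have h6 : (d : ℝ) * (2 * Real.log (Nat.log 2 n + 3) + 8 * m + 2) + 4 * m ^ 2 * Nat.log 2 n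
      ≤ c * (σ * σ) * (8 * m + 6 + 4 * m ^ 2) := by
    have b1 : 2 * Real.log (Nat.log 2 n + 3) + 8 * m + 2 ≤ σ * (8 * m + 6) := by nlinarith
    have b2 := mul_le_mul_of_nonneg_left b1 (show (0 : ℝ) ≤ d by positivity)
    have b3 : (Nat.log 2 n : ℝ) ≤ c * (σ * σ) := by nlinarith
    have b4 := mul_le_mul_of_nonneg_left b3 (show (0 : ℝ) ≤ 4 * m ^ 2 by positivity)
    rw [hd'] at b2 ⊢
    nlinarith
  have h7 := mul_le_mul_of_nonneg_left (mul_le_mul_of_nonneg_right h6 hE.le)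
    (show (0 : ℝ) ≤ 4 * m by positivity)
  have h8 := h4.trans (mul_le_mul_of_nonneg_left (add_le_add (t1.trans h7) (t2.trans h7)) ha0.le)
  have h9 : (d : ℝ) * (d * #(ones A)) ≤
      d * (d * (2 * #((ones A).filter fun e => R.alive m d e ∧ C.alive m d e))) := by gcongr
  have h10 : c * (σ * σ) * #(ones A) * (c : ℝ) ≤
      c * (σ * σ) * #(ones A) * (16 * a * m * (8 * m + 6 + 4 * m ^ 2)) := by
    rw [hd'] at h8 h9
    nlinarith
  have := le_of_mul_le_mul_left h10 (by positivity)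
  linarith

theorem sqrt_bound {k l : ℕ} (P : Matrix (Fin k) (Fin l) Bool) (hP : (rowColGraph P).IsAcyclic) :
    ∃ C : ℝ, ∀ n : ℕ, 1 ≤ n → (Ex P n : ℝ) ≤ n * 2 ^ (C * √(Real.logb 2 n)) := by
  obtain ⟨m, hm⟩ : ∃ m, m = 2 * (k + l + 1) := ⟨_, rfl⟩
  obtain ⟨c, hc⟩ := core_sq P hP (m := m) (by omega) (by omega) (by omega)
  refine ⟨2 + 2 * (m * c), fun n hn => Ex_le P n (by positivity) fun A hA => ?_⟩
  rcases hn.eq_or_lt with rfl | hn2
  · have : weight A ≤ 1 := (card_filter_le _ _).trans (by simp)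
    simpa using this
  have hn' : (2 : ℝ) ≤ n := by exact_mod_cast hn2
  have h1 : (Nat.log 2 n : ℝ) ≤ Real.logb 2 n := by
    exact_mod_cast Real.natLog_le_logb n 2
  have h2 : 1 ≤ Real.logb 2 n := by
    rw [Real.le_logb_iff_rpow_le (by norm_num) (by linarith)]; simpa using hn'
  have h3 : 1 ≤ √(Real.logb 2 n) := Real.one_le_sqrt.2 h2
  have h4 : (Nat.sqrt (Nat.log 2 n) : ℝ) ≤ √(Real.logb 2 n) :=
    Real.nat_sqrt_le_real_sqrt.trans (Real.sqrt_le_sqrt h1)
  have h5 : 4 * (n * m ^ (c * (Nat.sqrt (Nat.log 2 n) + 1)))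
      ≤ n * 2 ^ (2 + m * (c * (Nat.sqrt (Nat.log 2 n) + 1))) := by
    have := Nat.pow_le_pow_left (Nat.lt_two_pow_self (n := m)).le
      (c * (Nat.sqrt (Nat.log 2 n) + 1))
    rw [← pow_mul] at this
    rw [pow_add]
    nlinarith
  have h6 : (weight A : ℝ) ≤ n * 2 ^ (2 + m * (c * (Nat.sqrt (Nat.log 2 n) + 1))) := by
    exact_mod_cast (hc n (by omega) A hA).trans h5
  refine h6.trans (mul_le_mul_of_nonneg_left ?_ (by positivity))
  rw [← Real.rpow_natCast]
  refine Real.rpow_le_rpow_of_exponent_le (by norm_num) ?_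
  push_cast
  have h7 : (0 : ℝ) ≤ m * c := by positivity
  nlinarith

end Pool.Agent.P.MP_1bff7a_co
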