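import Pool.Agent.P.MP_1bff7a_co.Sq4
import Pool.Agent.P.MP_1bff7a_co.Pretzel

/-! A matrix that avoids `M` and has `n * 2 ^ (sqrt (log n) - 7)` ones. -/

namespace Pool.Agent.P.MP_1bff7a_co

open Finset

/-- The binary digits of `i` read in base `B`. -/
def phi (B : ℕ) : ℕ → ℕ → ℕ
  | 0, _ => 0
  | b + 1, i => B * phi B b (i / 2) + i % 2

/-- The sum of the first `j` powers of `B`. -/
def eps (B : ℕ) : ℕ → ℕ
  | 0 => 0
  | j + 1 => B * eps B j + 1

lemma eps_eq (B j : ℕ) : (B : ℤ) * eps B j + 1 = B ^ j + eps B j := by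
  induction j with
  | zero => simp [eps]
  | succ j ih => rw [eps]; push_cast; linear_combination (B : ℤ) * ih

lemma eps_mono {B : ℕ} (hB : 1 ≤ B) : Monotone (eps B) :=
  monotone_nat_of_le_succ fun j => by rw [eps]; nlinarith

lemma phi_le (B b i : ℕ) : phi B b i ≤ eps B b := by
  induction b generalizing i with
  | zero => simp [phi, eps]
  | succ b ih =>
    rw [phi, eps]
    have := Nat.mul_le_mul_left B (ih (i / 2))
    omega

lemma phi_diff (B b : ℕ) : ∀ i i', i < 2 ^ b → i' < 2 ^ b → i ≠ i' →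
    ∃ j, (B : ℤ) ^ j - eps B j ≤ |(phi B b i : ℤ) - phi B b i'| ∧
      |(phi B b i : ℤ) - phi B b i'| ≤ B ^ j + eps B j := by
  induction b with
  | zero => intro i i' h1 h2 h3; omega
  | succ b ih =>
    intro i i' h1 h2 h3
    have e : (phi B (b + 1) i : ℤ) - phi B (b + 1) i'
        = B * ((phi B b (i / 2) : ℤ) - phi B b (i' / 2)) + (((i % 2 : ℕ) : ℤ) - (i' % 2 : ℕ)) := by
      rw [phi, phi]; push_cast; ring
    rw [e]
    by_cases h : i / 2 = i' / 2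
    · refine ⟨0, ?_⟩
      have : |((i % 2 : ℕ) : ℤ) - (i' % 2 : ℕ)| = 1 := by
        rw [abs_eq (by norm_num)]; omega
      rw [h, sub_self, mul_zero, zero_add, this]
      simp [eps]
    · obtain ⟨j, a1, a2⟩ := ih (i / 2) (i' / 2) (by omega) (by omega) h
      refine ⟨j + 1, ?_⟩
      have d1 : |((i % 2 : ℕ) : ℤ) - (i' % 2 : ℕ)| ≤ 1 := by rw [abs_le]; omega
      generalize ((i % 2 : ℕ) : ℤ) - (i' % 2 : ℕ) = δ at d1
      generalize (phi B b (i / 2) : ℤ) - phi B b (i' / 2) = D at a1 a2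
      have hB : (0 : ℤ) ≤ B := by positivity
      have t1 := abs_add_le (B * D) δ
      have t2 := abs_sub (B * D + δ) δ
      rw [add_sub_cancel_right] at t2
      rw [abs_mul, abs_of_nonneg hB] at t1 t2
      have t3 := mul_le_mul_of_nonneg_left a1 hB
      have t4 := mul_le_mul_of_nonneg_left a2 hB
      rw [eps, pow_succ]
      push_cast
      constructor <;> nlinarith

/-- A longer step that fits under a shorter one is of a lower level. -/
lemma low_level {m b s s' i i' j : ℕ} {D : ℤ} (hs : s < s') (hm : s' ≤ m) (hi : i < 2 ^ b)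
    (hi' : i' < 2 ^ b) (hD : D ≤ (2 * m + 3 : ℕ) ^ j + eps (2 * m + 3) j)
    (h : s' * |(phi (2 * m + 3) b i : ℤ) - phi (2 * m + 3) b i'| ≤ s * D) :
    |(phi (2 * m + 3) b i : ℤ) - phi (2 * m + 3) b i'| ≤ eps (2 * m + 3) j := by
  by_cases hii : i = i'
  · simp [hii]
  obtain ⟨j1, a1, a2⟩ := phi_diff (2 * m + 3) b i i' hi hi' hii
  generalize |(phi (2 * m + 3) b i : ℤ) - phi (2 * m + 3) b i'| = X at *
  have e1 := eps_eq (2 * m + 3) j1
  have e2 := eps_eq (2 * m + 3) j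
  rcases lt_or_ge j1 j with hj | hj
  · have : (eps (2 * m + 3) (j1 + 1) : ℤ) ≤ eps (2 * m + 3) j := by
      exact_mod_cast eps_mono (by omega) hj
    rw [eps] at this
    push_cast at *
    linarith
  · exfalso
    have t1 : (eps (2 * m + 3) j : ℤ) ≤ eps (2 * m + 3) j1 := by
      exact_mod_cast eps_mono (by omega) hj
    have t2 : (s : ℤ) + 1 ≤ s' := by exact_mod_cast hs
    have t3 : (s' : ℤ) ≤ m := by exact_mod_cast hm
    have t4 : (0 : ℤ) ≤ s := by positivity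
    have t5 : (0 : ℤ) ≤ eps (2 * m + 3) j := by positivity
    push_cast at *
    generalize (eps (2 * m + 3) j : ℤ) = u at *
    generalize (eps (2 * m + 3) j1 : ℤ) = v at *
    have t6 : (2 * m + 1) * u + 1 ≤ X := by nlinarith
    have t7 : D ≤ (2 * m + 3) * u + 1 := by linarith
    have t8 := mul_le_mul_of_nonneg_left t7 t4
    have t9 := mul_le_mul t2 t6 (by positivity) (by positivity)
    nlinarith

/-- The matrix. -/
def low (n b T : ℕ) : Matrix (Fin n) (Fin n) Bool := fun x y =>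
  decide ((x : ℕ) / T < 2 ^ b ∧
    (y : ℕ) / 2 ^ b = x % T + (2 ^ b - x / T) * phi (2 * 2 ^ b + 3) b (y % 2 ^ b))

lemma low_avoids (n b T : ℕ) : ¬ Contains (low n b T) M := by
  rintro ⟨r, c, hr, hc, h⟩
  have h00 := h 0 0 rfl
  have h02 := h 0 2 rfl
  have h11 := h 1 1 rfl
  have h13 := h 1 3 rfl
  have h30 := h 3 0 rfl
  have h33 := h 3 3 rfl
  simp only [low, decide_eq_true_eq] at h00 h02 h11 h13 h30 h33
  have r03 : (r 0 : ℕ) < r 3 := hr (by decide)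
  have r13 : (r 1 : ℕ) < r 3 := hr (by decide)
  have c01 : (c 0 : ℕ) < c 1 := hc (by decide)
  have c12 : (c 1 : ℕ) < c 2 := hc (by decide)
  have c23 : (c 2 : ℕ) < c 3 := hc (by decide)
  have hp : 0 < 2 ^ b := by positivity
  have key : ∀ x x' z w : ℕ, x < x' → x' / T < 2 ^ b → z = x % T + (2 ^ b - x / T) * w →
      z = x' % T + (2 ^ b - x' / T) * w → 2 ^ b - x' / T < 2 ^ b - x / T := by
    intro x x' z w h1 h2 h3 h4
    have a1 := Nat.div_le_div_right (c := T) h1.le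
    have a2 := Nat.div_add_mod x T
    have a3 := Nat.div_add_mod x' T
    rcases a1.eq_or_lt with a | a
    · rw [a] at h3 a2; omega
    · omega
  have s0 := key _ _ _ _ r03 h30.1 h00.2 h30.2
  have s1 := key _ _ _ _ r13 h33.1 h13.2 h33.2
  have s3 : 1 ≤ 2 ^ b - (r 3 : ℕ) / T := by have := h33.1; omega
  have q01 := Nat.div_le_div_right (c := 2 ^ b) c01.le
  have q12 := Nat.div_le_div_right (c := 2 ^ b) c12.le
  have q23 := Nat.div_le_div_right (c := 2 ^ b) c23.le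
  have hne : (c 3 : ℕ) % 2 ^ b ≠ c 0 % 2 ^ b := by
    intro e
    have a2 := Nat.div_add_mod (c 0) (2 ^ b)
    have a3 := Nat.div_add_mod (c 3) (2 ^ b)
    rw [h33.2, e, ← h30.2] at a3
    omega
  obtain ⟨j, a1, a2⟩ := phi_diff (2 * 2 ^ b + 3) b _ _ (Nat.mod_lt _ hp) (Nat.mod_lt _ hp) hne
  have z00 := congrArg (Nat.cast : ℕ → ℤ) h00.2
  have z02 := congrArg (Nat.cast : ℕ → ℤ) h02.2
  have z11 := congrArg (Nat.cast : ℕ → ℤ) h11.2
  have z13 := congrArg (Nat.cast : ℕ → ℤ) h13.2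
  have z30 := congrArg (Nat.cast : ℕ → ℤ) h30.2
  have z33 := congrArg (Nat.cast : ℕ → ℤ) h33.2
  have y01 := (Nat.cast_le (α := ℤ)).2 q01
  have y12 := (Nat.cast_le (α := ℤ)).2 q12
  have y23 := (Nat.cast_le (α := ℤ)).2 q23
  rw [Nat.cast_add, Nat.cast_mul] at z00 z02 z11 z13 z30 z33
  have ab : ∀ (s : ℕ) (u v : ℤ), 0 ≤ s * u - s * v → s * |u - v| = s * u - s * v := by
    intro s u v h
    rw [← abs_of_nonneg h, ← mul_sub, abs_mul, Nat.abs_cast]
  have b0 := ab (2 ^ b - r 0 / T) (phi (2 * 2 ^ b + 3) b (c 2 % 2 ^ b))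
    (phi (2 * 2 ^ b + 3) b (c 0 % 2 ^ b)) (by linarith)
  have b1 := ab (2 ^ b - r 1 / T) (phi (2 * 2 ^ b + 3) b (c 3 % 2 ^ b))
    (phi (2 * 2 ^ b + 3) b (c 1 % 2 ^ b)) (by linarith)
  have b3 := ab (2 ^ b - r 3 / T) (phi (2 * 2 ^ b + 3) b (c 3 % 2 ^ b))
    (phi (2 * 2 ^ b + 3) b (c 0 % 2 ^ b)) (by linarith)
  have l0 := low_level s0 (Nat.sub_le _ _) (Nat.mod_lt (c 2) hp) (Nat.mod_lt (c 0) hp) a2
    (by linarith)
  have l1 := low_level s1 (Nat.sub_le _ _) (Nat.mod_lt (c 3) hp) (Nat.mod_lt (c 1) hp) a2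
    (by linarith)
  have m0 : (((2 ^ b - r 0 / T : ℕ) : ℤ)) ≤ (2 ^ b : ℕ) := by exact_mod_cast Nat.sub_le _ _
  have m1 : (((2 ^ b - r 1 / T : ℕ) : ℤ)) ≤ (2 ^ b : ℕ) := by exact_mod_cast Nat.sub_le _ _
  have m3 : (1 : ℤ) ≤ ((2 ^ b - r 3 / T : ℕ) : ℤ) := by exact_mod_cast s3
  have n0 := mul_le_mul m0 l0 (abs_nonneg _) (by positivity)
  have n1 := mul_le_mul m1 l1 (abs_nonneg _) (by positivity)
  have n3 := le_mul_of_one_le_left (abs_nonneg ((phi (2 * 2 ^ b + 3) b (c 3 % 2 ^ b) : ℤ)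
    - phi (2 * 2 ^ b + 3) b (c 0 % 2 ^ b))) m3
  have e1 := eps_eq (2 * 2 ^ b + 3) j
  have e2 : (0 : ℤ) ≤ eps (2 * 2 ^ b + 3) j := by positivity
  rw [Nat.cast_add, Nat.cast_mul] at e1 a1
  push_cast at e1 a1 n0 n1
  nlinarith

lemma low_weight {n b T : ℕ} (hT : 2 ^ b * eps (2 * 2 ^ b + 3) b ≤ T) (hn : 2 ^ b * (2 * T) ≤ n) :
    2 ^ b * T * 2 ^ b ≤ weight (low n b T) := by
  have hp : 0 < 2 ^ b := by positivity
  have hy : ∀ x i, x < 2 ^ b * T → i < 2 ^ b →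
      2 ^ b * (x % T + (2 ^ b - x / T) * phi (2 * 2 ^ b + 3) b i) + i < n := by
    intro x i hx hi
    have h0 : 0 < T := Nat.pos_of_ne_zero fun h => by simp [h] at hx
    have h1 := Nat.mod_lt x h0
    have h2 := Nat.mul_le_mul (Nat.sub_le (2 ^ b) (x / T)) (phi_le (2 * 2 ^ b + 3) b i)
    have h3 := Nat.mul_le_mul_left (2 ^ b)
      (show x % T + (2 ^ b - x / T) * phi (2 * 2 ^ b + 3) b i + 1 ≤ 2 * T by omega)
    rw [mul_add] at h3
    omega
  have hx : 2 ^ b * T ≤ n := le_trans (Nat.mul_le_mul_left _ (by omega)) hn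
  let g : Fin (2 ^ b * T) × Fin (2 ^ b) → Fin n × Fin n := fun p =>
    (⟨p.1, p.1.2.trans_le hx⟩, ⟨_, hy p.1 p.2 p.1.2 p.2.2⟩)
  have hc : #(univ : Finset (Fin (2 ^ b * T) × Fin (2 ^ b))) = 2 ^ b * T * 2 ^ b := by simp
  rw [← hc, weight]
  refine card_le_card_of_injOn g (fun p _ => ?_) fun p _ p' _ h => ?_
  · simp only [coe_filter, mem_univ, true_and, Set.mem_ofPred_eq, low, g, decide_eq_true_eq]
    refine ⟨Nat.div_lt_of_lt_mul (p.1.2.trans_eq (mul_comm _ _)), ?_⟩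
    rw [Nat.mul_add_div hp, Nat.mul_add_mod, Nat.div_eq_of_lt p.2.2, Nat.mod_eq_of_lt p.2.2,
      add_zero]
  · simp only [g, Prod.mk.injEq, Fin.mk.injEq] at h
    have h2 := congrArg (· % 2 ^ b) h.2
    simp only [Nat.mul_add_mod, Nat.mod_eq_of_lt p.2.2, Nat.mod_eq_of_lt p'.2.2] at h2
    exact Prod.ext (Fin.ext h.1) (Fin.ext h2)

theorem sqrt_lower {n : ℕ} (hn : 2 ≤ n) : (n : ℝ) * 2 ^ (√(Real.logb 2 n) - 7) ≤ Ex M n := by
  obtain ⟨N, hN⟩ : ∃ N, N = Nat.log 2 n := ⟨_, rfl⟩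
  obtain ⟨b, hb⟩ : ∃ b, b = Nat.sqrt N - 3 := ⟨_, rfl⟩
  have h1 : 2 ^ N ≤ n := hN ▸ Nat.pow_log_le_self 2 (by omega)
  have h2 : n < 2 ^ (N + 1) := hN ▸ Nat.lt_pow_succ_log_self (by norm_num) n
  have hN1 : 1 ≤ N := by
    by_contra h
    have : N = 0 := by omega
    rw [this] at h2; omega
  have h3 : b * b + 5 * b + 1 ≤ N := by
    have := Nat.sqrt_le N
    rcases Nat.eq_zero_or_pos b with h | h
    · simp [h, hN1]
    · have e : Nat.sqrt N = b + 3 := by omega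
      rw [e] at this
      nlinarith
  obtain ⟨T, hT⟩ : ∃ T, T = n / 2 ^ (b + 1) := ⟨_, rfl⟩
  have h4 : 2 ^ (b * b + 4 * b) ≤ T := by
    rw [hT, Nat.le_div_iff_mul_le (by positivity), ← pow_add]
    exact (Nat.pow_le_pow_right (by norm_num) (by omega)).trans h1
  have h5 : 2 ^ b * eps (2 * 2 ^ b + 3) b ≤ T := by
    have e1 : (2 * 2 ^ b + 3) * eps (2 * 2 ^ b + 3) b + 1
        = (2 * 2 ^ b + 3) ^ b + eps (2 * 2 ^ b + 3) b := by
      exact_mod_cast eps_eq (2 * 2 ^ b + 3) b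
    have e2 : 1 ≤ 2 ^ b := Nat.one_le_two_pow
    have e3 : (2 * 2 ^ b + 3) ^ b ≤ (2 ^ (b + 3)) ^ b :=
      Nat.pow_le_pow_left (by rw [pow_add]; omega) b
    have e4 : (2 ^ (b + 3)) ^ b ≤ 2 ^ (b * b + 4 * b) := by
      rw [← pow_mul]
      exact Nat.pow_le_pow_right (by norm_num) (by nlinarith)
    nlinarith
  have h6 : 2 ^ b * (2 * T) ≤ n := by
    rw [← mul_assoc, ← pow_succ, hT]
    exact Nat.mul_div_le _ _
  have h7 : n < 2 ^ (b + 1) * (T + 1) := hT ▸ Nat.lt_mul_div_succ n (by positivity)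
  have h8 : 1 ≤ T := le_trans Nat.one_le_two_pow h4
  have h9 : weight (low n b T) ≤ Ex M n := by
    refine le_csSup ⟨n * n, ?_⟩ ⟨_, low_avoids n b T, rfl⟩
    rintro w ⟨A, _, rfl⟩
    exact (card_filter_le _ _).trans (by simp)
  have h10 : n * 2 ^ b ≤ 4 * Ex M n := by
    have := (low_weight h5 h6).trans h9
    have e : n ≤ 4 * (2 ^ b * T) := by rw [pow_succ] at h7; nlinarith
    nlinarith [Nat.mul_le_mul_right (2 ^ b) e]
  have h11 : √(Real.logb 2 n) ≤ b + 5 := by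
    rw [Real.sqrt_le_left (by positivity)]
    have a1 : Real.logb 2 n ≤ (N + 1 : ℕ) := by
      rw [Real.logb_le_iff_le_rpow (by norm_num) (by positivity), Real.rpow_natCast]
      exact_mod_cast h2.le
    have a2 : N + 1 ≤ (b + 5) ^ 2 := by
      have := Nat.lt_succ_sqrt N
      have e : (Nat.sqrt N).succ ≤ b + 5 := by omega
      nlinarith [Nat.mul_le_mul e e]
    exact a1.trans (by exact_mod_cast a2)
  have h12 : (2 : ℝ) ^ (√(Real.logb 2 n) - 7) ≤ 2 ^ b / 4 := by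
    refine (Real.rpow_le_rpow_of_exponent_le (by norm_num)
      (show _ ≤ (b : ℝ) - 2 by linarith)).trans (le_of_eq ?_)
    rw [Real.rpow_sub (by norm_num), Real.rpow_natCast]
    norm_num
  have h13 : (n : ℝ) * 2 ^ b ≤ 4 * Ex M n := by exact_mod_cast h10
  have := mul_le_mul_of_nonneg_left h12 (show (0 : ℝ) ≤ n by positivity)
  linarith

end Pool.Agent.P.MP_1bff7a_co
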